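import Pool.Agent.W742.CU.SysSide

/-!
# The two halves of the counterexample, in terms of cube averages
-/

set_option autoImplicit false

open Finset Filter Topology MeasureTheory Polynomial
open scoped ENNReal

namespace Pool.Agent.W742.CU

open Pool.Agent.H767R2

theorem prod_P0_gen {X : Type*} (T : Equiv.Perm X) (f : Fin 7 → X → ℂ) (n : ℤ) (x : X) :
    ∏ p ∈ P0, (Function.extend pf f (fun _ _ => 0)) p ((T ^ (p.eval n)) x) =
      ∏ i : Fin 7, f i ((T ^ ((pf i).eval n)) x) := by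
  rw [P0, Finset.prod_map]
  refine Finset.prod_congr rfl fun i _ => ?_
  simp only [Function.Embedding.coeFn_mk]
  rw [pf_injective.extend_apply]

/-- the averages -/
noncomputable def AN {X : Type*} (T : Equiv.Perm X) (f : Fin 7 → X → ℂ) (N : ℕ) (x : X) : ℂ :=
  (1 / (N : ℂ)) * ∑ n ∈ Finset.Icc 1 N, ∏ i, f i ((T ^ ((pf i).eval (n : ℤ))) x)

theorem AN_eq {X : Type*} (T : Equiv.Perm X) (f : Fin 7 → X → ℂ) (N : ℕ) :
    polyAvg T P0 (Function.extend pf f (fun _ _ => 0)) N = AN T f N := by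
  ext x
  simp only [polyAvg, AN, prod_P0_gen]

theorem AN_meas {X : Type*} [MeasurableSpace X] {T : Equiv.Perm X}
    (hT : ∀ n : ℤ, Measurable ⇑(T ^ n)) {f : Fin 7 → X → ℂ} (hf : ∀ i, Measurable (f i)) (N : ℕ) :
    Measurable (AN T f N) := by
  refine measurable_const.mul (Finset.measurable_fun_sum _ fun n _ => ?_)
  exact Finset.measurable_fun_prod _ fun i _ => (hf i).comp (hT _)

theorem AN_bdd {X : Type*} (T : Equiv.Perm X) {f : Fin 7 → X → ℂ}
    (hf : ∀ i, ∃ C : ℝ, ∀ x, ‖f i x‖ ≤ C) (N : ℕ) : ∃ C : ℝ, ∀ x, ‖AN T f N x‖ ≤ C := by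
  choose C hC using hf
  refine ⟨‖(1 / (N : ℂ))‖ * ∑ n ∈ Finset.Icc 1 N, ∏ i, C i, fun x => ?_⟩
  rw [AN, norm_mul]
  gcongr
  refine (norm_sum_le _ _).trans (Finset.sum_le_sum fun n _ => ?_)
  rw [norm_prod]
  exact Finset.prod_le_prod (fun _ _ => norm_nonneg _) fun i _ => hC i _

theorem bm_of {X : Type*} [MeasurableSpace X] {f : X → ℂ} (hf : Measurable f)
    (hb : ∃ C : ℝ, ∀ x, ‖f x‖ ≤ C) : ∃ C, BM C f := by
  obtain ⟨C, hC⟩ := hb
  exact ⟨max C 0, hf, fun x => (hC x).trans (le_max_left _ _), le_max_right _ _⟩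

/-- the Weyl half, positive dimension -/
theorem weyl_half (W : WeylSystem) (f : Fin 7 → (Fin W.D → UnitAddCircle) → ℂ)
    (hf : ∀ i, Measurable (f i)) (hb : ∀ i, ∃ C : ℝ, ∀ x, ‖f i x‖ ≤ C) (i : Fin 7)
    (h : Tendsto (KA (haarT W.D) W.T 4 (f i)) atTop (𝓝 0)) :
    Tendsto (fun N => ∫ x, ‖AN W.T f N x‖ ^ 2 ∂(haarT W.D)) atTop (𝓝 0) := by
  obtain ⟨C, hC⟩ := bm_of (hf i) (hb i)
  have h1 := weyl_hk_zero W 3 hC h
  set F : ℤ[X] → (Fin W.D → UnitAddCircle) → ℂ := Function.extend pf f (fun _ _ => 0) with hF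
  have hFp : ∀ j, F (pf j) = f j := fun j => pf_injective.extend_apply _ _ _
  have h2 := weyl_seminorm W F (by
    intro p hp
    obtain ⟨j, rfl⟩ := (mem_P0 p).mp hp
    rw [hFp]
    obtain ⟨C, hC⟩ := hb j
    exact memLp_top_of_bound (hf j).aestronglyMeasurable C (ae_of_all _ hC)) (pf i)
    ((mem_P0 _).mpr ⟨i, rfl⟩) (by rw [hFp]; exact h1)
  simp_rw [hF, AN_eq] at h2
  exact tendsto_int_sq_of_eLpNorm (AN_meas (fun n => (W_mp W n).measurable) hf)
    (AN_bdd W.T hb) h2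

/-- the Weyl half, dimension zero (any one-point space) -/
theorem point_half {X : Type*} [MeasurableSpace X] [Subsingleton X] (μ : Measure X)
    [IsProbabilityMeasure μ] (T : Equiv.Perm X) (f : Fin 7 → X → ℂ) (i : Fin 7)
    (h : Tendsto (KA μ T 4 (f i)) atTop (𝓝 0)) :
    Tendsto (fun N => ∫ x, ‖AN T f N x‖ ^ 2 ∂μ) atTop (𝓝 0) := by
  have hne : Nonempty X := by
    by_contra hc
    rw [not_nonempty_iff] at hc
    exact IsProbabilityMeasure.ne_zero μ (Subsingleton.elim _ _)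
  obtain ⟨x0⟩ := hne
  set c : ℂ := ∏ ε : Fin 4 → Bool, cj (wt ε) (f i x0) with hc
  have h1 : ∀ h, corr μ T 4 (f i) h = c := by
    intro h
    have h2 : ∀ x, cube T 4 (f i) h x = c := by
      intro x
      rw [cube, hc]
      refine Finset.prod_congr rfl fun ε _ => ?_
      rw [Subsingleton.elim ((T ^ (ex ε h)) x) x0]
    rw [corr]
    simp only [h2]
    simp
  have h2 : ∀ᶠ H : ℕ in atTop, KA μ T 4 (f i) H = c := by
    filter_upwards [eventually_gt_atTop 0] with H hH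
    have hH0 : (H : ℂ) ^ 4 ≠ 0 := pow_ne_zero _ (by exact_mod_cast hH.ne')
    rw [KA]
    simp only [h1, Finset.sum_const, nsmul_eq_mul]
    rw [card_bx]
    simp only [Finset.prod_const, Finset.card_univ, Fintype.card_fin]
    push_cast
    rw [← mul_assoc, one_div, inv_mul_cancel₀ hH0, one_mul]
  have h3 : c = 0 := tendsto_nhds_unique (tendsto_const_nhds.congr' (h2.mono fun _ h => h.symm)) h
  have h4 : f i x0 = 0 := by
    rw [hc, Finset.prod_eq_zero_iff] at h3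
    obtain ⟨ε, _, hε⟩ := h3
    rw [← norm_eq_zero, norm_cj, norm_eq_zero] at hε
    exact hε
  have h5 : ∀ N x, AN T f N x = 0 := by
    intro N x
    rw [AN, Finset.sum_eq_zero, mul_zero]
    intro n _
    refine Finset.prod_eq_zero (Finset.mem_univ i) ?_
    rw [Subsingleton.elim ((T ^ ((pf i).eval (n : ℤ))) x) x0, h4]
  simp only [h5]
  simp

/-- the general half -/
theorem general_half :
    Tendsto (KA muX TT 4 (FF (Fin.succ 3))) atTop (𝓝 0) ∧
      ¬ Tendsto (fun N => ∫ x, ‖AN TT (fun i : Fin 7 => FF i.succ) N x‖ ^ 2 ∂muX) atTop (𝓝 0) := by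
  refine ⟨KA_ff, fun h => ?_⟩
  have hb : ∀ i : Fin 7, ∃ C : ℝ, ∀ x, ‖FF i.succ x‖ ≤ C := fun i => ⟨1, norm_FF_le _⟩
  have h1 := tendsto_eLpNorm_of_int_sq
    (AN_meas (fun n => (TT_mp n).measurable) fun i => measurable_FF i.succ) (AN_bdd TT hb) h
  have h2 : ∀ N, AN TT (fun i : Fin 7 => FF i.succ) N = polyAvg TT P0 fP N := by
    intro N
    ext x
    simp only [AN, polyAvg]
    congr 1
    refine Finset.sum_congr rfl fun n _ => ?_
    rw [P0, Finset.prod_map]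
    refine Finset.prod_congr rfl fun i _ => ?_
    simp only [Function.Embedding.coeFn_mk, fP_pf]
  simp_rw [h2] at h1
  have h4 : ENNReal.ofReal cc ≤ 0 := by
    refine ge_of_tendsto h1 ?_
    filter_upwards [eventually_gt_atTop 0] with N hN
    exact polyAvg_lower N hN
  exact absurd h4 (not_le.mpr (ENNReal.ofReal_pos.mpr cc_pos))

theorem pf_natDegree (i : Fin 7) : 0 < (pf i).natDegree :=
  essentiallyDistinct_P0.1 _ ((mem_P0 _).mpr ⟨i, rfl⟩)

theorem pf_sub_natDegree (i j : Fin 7) (h : i ≠ j) : 0 < (pf i - pf j).natDegree :=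
  essentiallyDistinct_P0.2 _ ((mem_P0 _).mpr ⟨i, rfl⟩) _ ((mem_P0 _).mpr ⟨j, rfl⟩)
    (pf_injective.ne h)

end Pool.Agent.W742.CU
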