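import Pool.Agent.W742.CU.Poly
import Pool.Agent.H767R2.Exist2

/-!
# Cube averages and their uniform means in Weyl systems
-/

set_option autoImplicit false

open Finset Filter Topology MeasureTheory

namespace Pool.Agent.W742.CU

open Pool.Agent.H767R2

section Gen

variable {X : Type*}

/-- iterated conjugation -/
noncomputable def cj (k : ℕ) : ℂ → ℂ := (⇑(starRingEnd ℂ))^[k]

theorem cj_zero (z : ℂ) : cj 0 z = z := rfl

theorem cj_succ (k : ℕ) (z : ℂ) : cj (k + 1) z = (starRingEnd ℂ) (cj k z) := by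
  rw [cj, Function.iterate_succ_apply']; rfl

theorem cj_succ' (k : ℕ) (z : ℂ) : cj (k + 1) z = cj k ((starRingEnd ℂ) z) := by
  rw [cj, Function.iterate_succ_apply]; rfl

theorem cj_mul (k : ℕ) (z w : ℂ) : cj k (z * w) = cj k z * cj k w := by
  induction k with
  | zero => rfl
  | succ k ih => rw [cj_succ, cj_succ, cj_succ, ih, map_mul]

theorem cj_sum {ι : Type*} (k : ℕ) (F : Finset ι) (f : ι → ℂ) :
    cj k (∑ i ∈ F, f i) = ∑ i ∈ F, cj k (f i) := by
  induction k with
  | zero => rfl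
  | succ k ih => rw [cj_succ, ih, map_sum]; simp only [cj_succ]

theorem cj_conj (k : ℕ) (z : ℂ) : (starRingEnd ℂ) (cj k z) = cj k ((starRingEnd ℂ) z) := by
  rw [← cj_succ, cj_succ']

theorem norm_cj (k : ℕ) (z : ℂ) : ‖cj k z‖ = ‖z‖ := by
  induction k with
  | zero => rfl
  | succ k ih => rw [cj_succ, RCLike.norm_conj, ih]

theorem continuous_cj (k : ℕ) : Continuous (cj k) := Complex.continuous_conj.iterate k

/-- weight of a vertex -/
def wt {r : ℕ} (ε : Fin r → Bool) : ℕ := (Finset.univ.filter (fun j => ε j = true)).card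

/-- exponent of a vertex -/
def ex {r : ℕ} (ε : Fin r → Bool) (h : Fin r → ℤ) : ℤ := ∑ j, if ε j = true then h j else 0

/-- cube products -/
noncomputable def cube (T : Equiv.Perm X) (r : ℕ) (f : X → ℂ) (h : Fin r → ℤ) (x : X) : ℂ :=
  ∏ ε : Fin r → Bool, cj (wt ε) (f ((T ^ (ex ε h)) x))

/-- the derivative of `f` in the direction `t` -/
noncomputable def dd (T : Equiv.Perm X) (t : ℤ) (f : X → ℂ) : X → ℂ := fun x =>
  (starRingEnd ℂ) (f x) * f ((T ^ t) x)

theorem wt_cons {r : ℕ} (b : Bool) (ε : Fin r → Bool) :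
    wt (Fin.cons b ε : Fin (r + 1) → Bool) = (if b = true then 1 else 0) + wt ε := by
  simp only [wt, Finset.card_filter]
  rw [Fin.sum_univ_succ]
  simp [Fin.cons_zero, Fin.cons_succ]

theorem ex_cons {r : ℕ} (b : Bool) (ε : Fin r → Bool) (t : ℤ) (h : Fin r → ℤ) :
    ex (Fin.cons b ε : Fin (r + 1) → Bool) (Fin.cons t h) = (if b = true then t else 0) + ex ε h := by
  simp only [ex]
  rw [Fin.sum_univ_succ]
  simp [Fin.cons_zero, Fin.cons_succ]

theorem cube_zero (T : Equiv.Perm X) (f : X → ℂ) (h : Fin 0 → ℤ) (x : X) :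
    cube T 0 f h x = f x := by
  simp [cube, wt, ex, cj]

theorem cube_cons (T : Equiv.Perm X) (r : ℕ) (f : X → ℂ) (t : ℤ) (h : Fin r → ℤ) (x : X) :
    cube T (r + 1) f (Fin.cons t h) x = (starRingEnd ℂ) (cube T r (dd T t f) h x) := by
  have h1 : cube T (r + 1) f (Fin.cons t h) x = ∏ p : Bool × (Fin r → Bool),
      cj (wt (Fin.cons p.1 p.2 : Fin (r + 1) → Bool))
        (f ((T ^ (ex (Fin.cons p.1 p.2 : Fin (r + 1) → Bool) (Fin.cons t h))) x)) := by
    rw [cube]
    refine (Fintype.prod_equiv (Fin.consEquiv (fun _ => Bool)) _ _ fun p => ?_).symm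
    rfl
  rw [h1, Fintype.prod_prod_type]
  simp only [Fintype.prod_bool, wt_cons, ex_cons, if_true, Bool.false_eq_true, if_false, zero_add]
  rw [← Finset.prod_mul_distrib, cube, map_prod]
  refine Finset.prod_congr rfl fun ε _ => ?_
  rw [dd, add_comm 1 (wt ε), zpow_add, Equiv.Perm.mul_apply, cj_succ', cj_conj, map_mul,
    Complex.conj_conj, cj_mul, mul_comm]

end Gen

section Meas

variable {X : Type*} [MeasurableSpace X] {μ : Measure X} [IsProbabilityMeasure μ]
  {T : Equiv.Perm X}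

/-- bounded measurable functions -/
structure BM (C : ℝ) (f : X → ℂ) : Prop where
  meas : Measurable f
  bd : ∀ x, ‖f x‖ ≤ C
  nonneg : 0 ≤ C

/-- cube correlations -/
noncomputable def corr (μ : Measure X) (T : Equiv.Perm X) (r : ℕ) (f : X → ℂ) (h : Fin r → ℤ) : ℂ :=
  ∫ x, cube T r f h x ∂μ

omit [IsProbabilityMeasure μ] in
theorem corr_cons (r : ℕ) (f : X → ℂ) (t : ℤ) (h : Fin r → ℤ) :
    corr μ T (r + 1) f (Fin.cons t h) = (starRingEnd ℂ) (corr μ T r (dd T t f) h) := by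
  rw [corr, corr, ← integral_conj]
  simp only [cube_cons]

theorem BM.dd {C : ℝ} {f : X → ℂ} (hf : BM C f) (hT : ∀ n : ℤ, MeasurePreserving ⇑(T ^ n) μ μ)
    (t : ℤ) : BM (C * C) (dd T t f) := by
  refine ⟨?_, fun x => ?_, mul_nonneg hf.nonneg hf.nonneg⟩
  · exact (Complex.continuous_conj.measurable.comp hf.meas).mul (hf.meas.comp (hT t).measurable)
  · rw [CU.dd, norm_mul, RCLike.norm_conj]
    exact mul_le_mul (hf.bd x) (hf.bd _) (norm_nonneg _) hf.nonneg

theorem BM.int {C : ℝ} {f : X → ℂ} (hf : BM C f) : Integrable f μ :=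
  Integrable.of_bound hf.meas.aestronglyMeasurable C (Eventually.of_forall hf.bd)

theorem BM.toBd {C : ℝ} {f : X → ℂ} (hf : BM C f) : Bd μ C f :=
  ⟨hf.meas.aestronglyMeasurable, Eventually.of_forall hf.bd⟩

theorem corr_bdd (hT : ∀ n : ℤ, MeasurePreserving ⇑(T ^ n) μ μ) (r : ℕ) : ∀ {C : ℝ} {f : X → ℂ},
    BM C f → ∀ h, ‖corr μ T r f h‖ ≤ C ^ (2 ^ r) := by
  induction r with
  | zero =>
    intro C f hf h
    simp only [corr, cube_zero, pow_zero, pow_one]
    have := norm_integral_le_of_norm_le_const (μ := μ) (Eventually.of_forall hf.bd)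
    simpa using this
  | succ r ih =>
    intro C f hf h
    rw [← Fin.cons_self_tail h, corr_cons, RCLike.norm_conj]
    refine (ih (hf.dd hT (h 0)) (Fin.tail h)).trans (le_of_eq ?_)
    rw [← pow_two, ← pow_mul, pow_succ 2 r, mul_comm]

theorem corr_lip (hT : ∀ n : ℤ, MeasurePreserving ⇑(T ^ n) μ μ) (r : ℕ) : ∀ C : ℝ,
    ∃ K : ℝ, 0 ≤ K ∧ ∀ f g : X → ℂ, BM C f → BM C g → ∀ h,
      ‖corr μ T r f h - corr μ T r g h‖ ≤ K * ∫ x, ‖f x - g x‖ ∂μ := by
  induction r with
  | zero =>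
    intro C
    refine ⟨1, zero_le_one, fun f g hf hg h => ?_⟩
    simp only [corr, cube_zero, one_mul]
    rw [← integral_sub hf.int hg.int]
    exact norm_integral_le_integral_norm _
  | succ r ih =>
    intro C
    obtain ⟨K, hK, hKb⟩ := ih (C * C)
    by_cases hC : 0 ≤ C
    swap
    · exact ⟨0, le_rfl, fun f g hf hg h => absurd hf.nonneg hC⟩
    refine ⟨K * (2 * C), by positivity, fun f g hf hg h => ?_⟩
    rw [← Fin.cons_self_tail h, corr_cons, corr_cons, ← map_sub, RCLike.norm_conj]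
    refine (hKb _ _ (hf.dd hT (h 0)) (hg.dd hT (h 0)) (Fin.tail h)).trans ?_
    rw [mul_assoc]
    refine mul_le_mul_of_nonneg_left ?_ hK
    have hfg : Integrable (fun x => ‖f x - g x‖) μ := (hf.int.sub hg.int).norm
    have hfg' : Integrable (fun x => ‖f ((T ^ h 0) x) - g ((T ^ h 0) x)‖) μ := by
      have := (hT (h 0)).integrable_comp_of_integrable hfg
      exact this
    have hint : ∫ x, ‖f ((T ^ h 0) x) - g ((T ^ h 0) x)‖ ∂μ = ∫ x, ‖f x - g x‖ ∂μ := by
      have h1 := integral_map (μ := μ) (φ := ⇑(T ^ h 0)) (hT (h 0)).measurable.aemeasurable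
        (f := fun x => ‖f x - g x‖) (by
          exact (hf.meas.sub hg.meas).norm.aestronglyMeasurable)
      rw [(hT (h 0)).map_eq] at h1
      exact h1.symm
    calc ∫ x, ‖CU.dd T (h 0) f x - CU.dd T (h 0) g x‖ ∂μ ≤
        ∫ x, (C * ‖f x - g x‖ + C * ‖f ((T ^ h 0) x) - g ((T ^ h 0) x)‖) ∂μ := by
          refine integral_mono ?_ ((hfg.const_mul C).add (hfg'.const_mul C)) fun x => ?_
          · exact ((hf.dd hT (h 0)).int.sub (hg.dd hT (h 0)).int).norm
          · show ‖CU.dd T (h 0) f x - CU.dd T (h 0) g x‖ ≤ _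
            have e : CU.dd T (h 0) f x - CU.dd T (h 0) g x =
                (starRingEnd ℂ) (f x - g x) * f ((T ^ h 0) x) +
                  (starRingEnd ℂ) (g x) * (f ((T ^ h 0) x) - g ((T ^ h 0) x)) := by
              simp only [CU.dd, map_sub]; ring
            rw [e]
            refine (norm_add_le _ _).trans ?_
            rw [norm_mul, norm_mul, RCLike.norm_conj, RCLike.norm_conj]
            refine add_le_add ?_ ?_
            · rw [mul_comm]
              exact mul_le_mul_of_nonneg_right (hf.bd _) (norm_nonneg _)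
            · exact mul_le_mul_of_nonneg_right (hg.bd _) (norm_nonneg _)
      _ = 2 * C * ∫ x, ‖f x - g x‖ ∂μ := by
          rw [integral_add (hfg.const_mul C) (hfg'.const_mul C), integral_const_mul,
            integral_const_mul, hint]
          ring

end Meas

/-! ### Polynomial orbits of unipotent maps -/

section Unip

variable {A Γ : Type*} [AddCommGroup A] [AddCommGroup Γ]

theorem Nf_iter_zpow (U : Γ ≃ₗ[ℤ] Γ) (r : ℕ) (t : ℤ) (g : Γ) :
    (Nf U)^[r] ((U ^ t) g) = (U ^ t) ((Nf U)^[r] g) := by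
  obtain ⟨k, rfl | rfl⟩ := t.eq_nat_or_neg
  · rw [zpow_natCast]
    exact Nf_iter_pow U r k g
  · have h1 : (U ^ (k : ℤ)) ((Nf U)^[r] ((U ^ (-(k : ℤ))) g)) =
        (U ^ (k : ℤ)) ((U ^ (-(k : ℤ))) ((Nf U)^[r] g)) := by
      rw [zpow_natCast, ← Nf_iter_pow, ← zpow_natCast]
      have e : ∀ z : Γ, (U ^ (k : ℤ)) ((U ^ (-(k : ℤ))) z) = z := by
        intro z
        have h2 : (U ^ (k : ℤ) * U ^ (-(k : ℤ))) z = z := by
          rw [← zpow_add, add_neg_cancel, zpow_zero]; rfl
        exact h2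
      rw [e, e]
    exact (U ^ (k : ℤ)).injective h1

theorem zpow_fix (U : Γ ≃ₗ[ℤ] Γ) {w : Γ} (hw : U w = w) (t : ℤ) : (U ^ t) w = w := by
  have hn : ∀ k : ℕ, (U ^ k) w = w := by
    intro k
    induction k with
    | zero => rfl
    | succ k ih =>
      rw [pow_succ]
      show (U ^ k) (U w) = w
      rw [hw, ih]
  obtain ⟨k, rfl | rfl⟩ := t.eq_nat_or_neg
  · rw [zpow_natCast, hn]
  · have h2 : (U ^ (-(k : ℤ))) ((U ^ (k : ℤ)) w) = w := by
      have h3 : (U ^ (-(k : ℤ)) * U ^ (k : ℤ)) w = w := by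
        rw [← zpow_add, neg_add_cancel, zpow_zero]; rfl
      exact h3
    rw [zpow_natCast, hn] at h2
    exact h2

theorem unip_poly (U : Γ ≃ₗ[ℤ] Γ) (ℓ : A →+ ℤ) (n : ℕ) : ∀ g : Γ, (Nf U)^[n + 1] g = 0 →
    IsPoly n (fun h : A => (U ^ (ℓ h)) g) := by
  induction n with
  | zero =>
    intro g hg h
    have hU : U g = g := sub_eq_zero.1 hg
    show (U ^ (ℓ h)) g = (U ^ (ℓ 0)) g
    rw [zpow_fix U hU, zpow_fix U hU]
  | succ n ih =>
    intro g hg v
    have h1 : Dv v (fun h : A => (U ^ (ℓ h)) g) = fun h => (U ^ (ℓ h)) ((U ^ (ℓ v)) g - g) := by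
      ext h
      simp only [Dv]
      rw [map_sub, map_add, zpow_add]
      rfl
    rw [h1]
    refine ih _ ?_
    rw [Nf_iter_sub, Nf_iter_zpow, zpow_fix, sub_self]
    have h2 : Nf U ((Nf U)^[n + 1] g) = 0 := by
      rw [← Function.iterate_succ_apply' (Nf U) (n + 1) g]
      exact hg
    exact sub_eq_zero.1 h2

/-- the exponent as a homomorphism -/
def exHom {r : ℕ} (ε : Fin r → Bool) : (Fin r → ℤ) →+ ℤ :=
  AddMonoidHom.mk' (ex ε) (fun a b => by
    simp only [ex, ← Finset.sum_add_distrib]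
    refine Finset.sum_congr rfl fun j _ => ?_
    split_ifs <;> simp)

end Unip

/-! ### Weyl systems -/

section Weyl

variable (W : WeylSystem)

theorem W_mp (n : ℤ) : MeasurePreserving ⇑(W.T ^ n) (haarT W.D) (haarT W.D) :=
  zpow_measurePreserving W.T W.measurePreserving_T W.measurePreserving_T_symm n

theorem integral_E (g : (Fin W.D → ℤ) × ℝ) :
    ∫ x, W.cs.E g x ∂(haarT W.D) = if g.1 = 0 then ee g.2 else 0 := by
  simp only [W.cs_E]
  rw [integral_const_mul]
  split_ifs with h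
  · rw [h]
    simp only [chi_zero]
    simp
  · rw [integral_chi _ h, mul_zero]

theorem cj_E (k : ℕ) (g : (Fin W.D → ℤ) × ℝ) (x : Fin W.D → UnitAddCircle) :
    cj k (W.cs.E g x) = W.cs.E (((-1 : ℤ) ^ k) • g) x := by
  induction k with
  | zero => rw [cj_zero, pow_zero, one_smul]
  | succ k ih =>
    rw [cj_succ, ih, ← W.cs.neg, pow_succ, mul_neg_one, neg_smul]

theorem E_sum {ι : Type*} (F : Finset ι) (g : ι → (Fin W.D → ℤ) × ℝ)
    (x : Fin W.D → UnitAddCircle) : W.cs.E (∑ i ∈ F, g i) x = ∏ i ∈ F, W.cs.E (g i) x := by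
  classical
  induction F using Finset.induction_on with
  | empty => simpa using W.cs.zero x
  | insert i F hi ih => rw [Finset.sum_insert hi, Finset.prod_insert hi, W.cs.add, ih]

/-- uniform means for trigonometric polynomials -/
theorem um_trig (r : ℕ) {ι : Type*} (F : Finset ι) (c : ι → ℂ) (g : ι → (Fin W.D → ℤ) × ℝ) :
    ∃ z, UM (corr (haarT W.D) W.T r (fun x => ∑ i ∈ F, c i * W.cs.E (g i) x)) z := by
  classical
  obtain ⟨n, hn⟩ := W.nilpotent_cs
  -- the expansion
  set G : ((Fin r → Bool) → ι) → (Fin r → ℤ) → (Fin W.D → ℤ) × ℝ := fun φ h =>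
    ∑ ε : Fin r → Bool, ((-1 : ℤ) ^ (wt ε)) • ((W.cs.U ^ (ex ε h)) (g (φ ε))) with hG
  have hcube : ∀ h x, cube W.T r (fun x => ∑ i ∈ F, c i * W.cs.E (g i) x) h x =
      ∑ φ ∈ Fintype.piFinset (fun _ : Fin r → Bool => F),
        (∏ ε, cj (wt ε) (c (φ ε))) * W.cs.E (G φ h) x := by
    intro h x
    rw [cube]
    simp only [cj_sum, cj_mul]
    rw [Finset.prod_univ_sum]
    refine Finset.sum_congr rfl fun φ _ => ?_
    rw [Finset.prod_mul_distrib, hG, E_sum]
    congr 1
    refine Finset.prod_congr rfl fun ε _ => ?_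
    rw [W.cs.zpow, cj_E]
  have hcorr : ∀ h, corr (haarT W.D) W.T r (fun x => ∑ i ∈ F, c i * W.cs.E (g i) x) h =
      ∑ φ ∈ Fintype.piFinset (fun _ : Fin r → Bool => F),
        (∏ ε, cj (wt ε) (c (φ ε))) * (if (G φ h).1 = 0 then ee (G φ h).2 else 0) := by
    intro h
    rw [corr]
    simp only [hcube]
    rw [integral_finsetSum]
    · refine Finset.sum_congr rfl fun φ _ => ?_
      rw [integral_const_mul, integral_E]
    · intro φ _
      exact ((W.cs.bd (μ := haarT W.D) (G φ h)).integrable).const_mul _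
  have hpoly : ∀ φ, IsPoly n (G φ) := by
    intro φ
    refine IsPoly.sum _ fun ε _ => ?_
    have h1 : IsPoly n (fun h => (W.cs.U ^ (exHom ε h)) (g (φ ε))) := by
      refine unip_poly W.cs.U (exHom ε) n _ ?_
      rw [Function.iterate_succ_apply', hn]
      exact Nf_zero _
    exact h1.map (AddMonoidHom.mk' (fun z : (Fin W.D → ℤ) × ℝ => ((-1 : ℤ) ^ (wt ε)) • z)
      (fun a b => smul_add _ _ _))
  choose z hz using fun φ => um_char n (G φ) (hpoly φ)
  exact ⟨_, (UM.sum _ fun φ _ => (hz φ).const_mul _).congr hcorr⟩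

/-- **Uniform means of the cube correlations exist in Weyl systems.** -/
theorem um_weyl (r : ℕ) {C : ℝ} {f : (Fin W.D → UnitAddCircle) → ℂ} (hf : BM C f) :
    ∃ z, UM (corr (haarT W.D) W.T r f) z := by
  obtain ⟨K, hK, hKb⟩ := corr_lip (W_mp W) r (C + 2)
  have hC := hf.nonneg
  refine UM.of_approx fun ε hε => ?_
  have hf1 : Bd (haarT W.D) (C + 1) f :=
    ⟨hf.meas.aestronglyMeasurable, Eventually.of_forall fun x => (hf.bd x).trans (by linarith)⟩
  obtain ⟨F, c, hb, hd⟩ := trig_approx (by positivity) hf1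
    (show 0 < ε / (K + 1) by positivity)
  set P : (Fin W.D → UnitAddCircle) → ℂ := fun x => ∑ m ∈ F, c m * chi m x with hP
  have hP' : P = fun x => ∑ m ∈ F, c m * W.cs.E (m, 0) x := by
    ext x
    simp only [hP, W.cs_E, ee_zero, one_mul]
  obtain ⟨z, hz⟩ := um_trig W r F c (fun m => (m, (0 : ℝ)))
  rw [← hP'] at hz
  have hPm : Measurable P := by
    rw [hP]
    exact Finset.measurable_sum _ fun m _ => (continuous_chi m).measurable.const_mul _
  have hPB : BM (C + 2) P := ⟨hPm, fun x => (hb x).trans (by linarith), by linarith⟩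
  have hfB : BM (C + 2) f := ⟨hf.meas, fun x => (hf.bd x).trans (by linarith), by linarith⟩
  refine ⟨_, z, hz, fun h => (hKb f P hfB hPB h).trans ?_⟩
  have h1 : ∫ x, ‖f x - P x‖ ∂(haarT W.D) ≤ ε / (K + 1) := by
    have h0 := integral_norm_eq_lintegral_enorm (μ := haarT W.D) (f := fun x => f x - P x)
      (hf.meas.sub hPm).aestronglyMeasurable
    rw [h0, ← eLpNorm_one_eq_lintegral_enorm]
    exact ENNReal.toReal_le_of_le_ofReal (by positivity) hd
  calc K * ∫ x, ‖f x - P x‖ ∂(haarT W.D) ≤ (K + 1) * (ε / (K + 1)) := by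
        gcongr
        linarith
    _ = ε := by field_simp

end Weyl

end Pool.Agent.W742.CU
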