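import Pool.Agent.W742.CU.Cube
import Pool.Agent.H767R2.HKzero

/-!
# Host–Kra seminorms are bounded by the uniform means of the cube correlations
-/

set_option autoImplicit false

open Finset Filter Topology MeasureTheory
open scoped ENNReal

namespace Pool.Agent.W742.CU

open Pool.Agent.H767R2

theorem sum_bx_cons {r : ℕ} {M' : Type*} [AddCommMonoid M'] (F : (Fin (r + 1) → ℤ) → M') (a : ℤ)
    (M : ℕ) (a' : Fin r → ℤ) (s' : Fin r → ℕ) :
    ∑ h ∈ bx (Fin.cons a a' : Fin (r + 1) → ℤ) (Fin.cons M s' : Fin (r + 1) → ℕ), F h =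
      ∑ n ∈ range M, ∑ h ∈ bx a' s', F (Fin.cons (a + n) h) := by
  rw [← Finset.sum_product']
  refine Finset.sum_nbij' (fun h => ((h 0 - a).toNat, Fin.tail h))
    (fun p => (Fin.cons (a + p.1) p.2 : Fin (r + 1) → ℤ)) ?_ ?_ ?_ ?_ ?_
  · intro h hh
    rw [mem_bx] at hh
    rw [Finset.mem_product, Finset.mem_range, mem_bx]
    refine ⟨?_, fun j => ?_⟩
    · have h0 := hh 0
      simp only [Fin.cons_zero] at h0
      show (h 0 - a).toNat < M
      omega
    · have h1 := hh j.succ
      simp only [Fin.cons_succ] at h1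
      exact h1
  · intro p hp
    rw [Finset.mem_product, Finset.mem_range, mem_bx] at hp
    rw [mem_bx]
    intro j
    refine Fin.cases ?_ (fun i => ?_) j
    · simp only [Fin.cons_zero]
      have := hp.1
      omega
    · simp only [Fin.cons_succ]
      exact hp.2 i
  · intro h hh
    rw [mem_bx] at hh
    have h0 := hh 0
    simp only [Fin.cons_zero] at h0
    have h1 : a + ((h 0 - a).toNat : ℤ) = h 0 := by omega
    simp only [h1]
    exact Fin.cons_self_tail h
  · intro p _
    simp only [Fin.cons_zero, Fin.tail_cons]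
    ext
    · simp
    · rfl
  · intro h hh
    rw [mem_bx] at hh
    have h0 := hh 0
    simp only [Fin.cons_zero] at h0
    have h1 : a + ((h 0 - a).toNat : ℤ) = h 0 := by omega
    simp only [h1, Fin.cons_self_tail]

theorem vl_cons {r : ℕ} (M : ℕ) (s' : Fin r → ℕ) :
    vl (Fin.cons M s' : Fin (r + 1) → ℕ) = M * vl s' := by
  rw [vl, Fin.prod_univ_succ]
  simp [vl]

theorem bx_zero (a : Fin 0 → ℤ) (s : Fin 0 → ℕ) : bx a s = {a} := by
  ext h
  rw [mem_bx, Finset.mem_singleton]
  exact ⟨fun _ => Subsingleton.elim _ _, fun _ j => j.elim0⟩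

theorem vl_zero (s : Fin 0 → ℕ) : vl s = 1 := by simp [vl]

section

variable {X : Type*} [MeasurableSpace X] {μ : Measure X} [IsProbabilityMeasure μ]
  {T : Equiv.Perm X}

omit [MeasurableSpace X] in
theorem zpow_nat (T : Equiv.Perm X) (n : ℕ) (x : X) : (T ^ (n : ℤ)) x = (⇑T)^[n] x := by
  rw [zpow_natCast, Equiv.Perm.iterate_eq_pow]

omit [IsProbabilityMeasure μ] in
theorem corr_one (f : X → ℂ) (t : ℤ) (h : Fin 0 → ℤ) :
    corr μ T 1 f (Fin.cons t h) = ∫ x, f x * (starRingEnd ℂ) (f ((T ^ t) x)) ∂μ := by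
  rw [corr_cons, corr, ← integral_conj]
  refine integral_congr_ae (ae_of_all _ fun x => ?_)
  simp only [cube_zero, dd, map_mul, Complex.conj_conj]

theorem hk_zero_le (hT : ∀ n : ℤ, MeasurePreserving ⇑(T ^ n) μ μ) {C : ℝ} {f : X → ℂ}
    (hf : BM C f) {c : ℂ} (h : UM (corr μ T 1 f) c) :
    0 ≤ c.re ∧ hk μ T 0 f ≤ ENNReal.ofReal c.re := by
  have hT1 : MeasurePreserving (⇑T) μ μ := by simpa using hT 1
  have hfB : Bd μ C f := hf.toBd
  have hC := hf.nonneg
  have key : ∀ ε : ℝ, 0 < ε → 0 ≤ c.re + ε ∧ hk μ T 0 f ≤ ENNReal.ofReal (c.re + ε) := by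
    intro ε hε
    obtain ⟨L, hL⟩ := h ε hε
    obtain ⟨M, hML, hM⟩ : ∃ M : ℕ, L ≤ M ∧ 0 < M := ⟨L + 1, by omega, by omega⟩
    have hM' : (M : ℝ) ≠ 0 := by exact_mod_cast hM.ne'
    have hM'' : (M : ℂ) ≠ 0 := by exact_mod_cast hM.ne'
    have hMpos : (0 : ℝ) < M := by exact_mod_cast hM
    set e : ℕ → X → ℂ := fun k x => f ((⇑T)^[k] x) with he
    have hebd : ∀ k, Bd μ C (e k) := fun k => hfB.comp (hT1.iterate _)
    set g : X → ℂ := fun x => (1 / (M : ℂ)) * ∑ k ∈ Finset.range M, e k x with hg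
    have hgbd : Bd μ (‖(1 / (M : ℂ))‖ * ∑ k ∈ Finset.range M, C) g :=
      (Bd.sum _ fun k _ => hebd k).const_mul _
    have hm := MeasurableSpace.invariants_le (⇑T)
    -- conditional expectations agree
    have h1 : μ[g | MeasurableSpace.invariants (⇑T)] =ᵐ[μ]
        μ[f | MeasurableSpace.invariants (⇑T)] := by
      refine ae_eq_condExp_of_forall_setIntegral_eq hm hfB.integrable (fun s _ _ => ?_)
        (fun s hs _ => ?_) ?_
      · exact integrable_condExp.integrableOn
      · rw [setIntegral_condExp hm hgbd.integrable hs]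
        simp only [hg]
        rw [integral_const_mul, integral_finsetSum]
        · rw [Finset.sum_congr rfl fun k _ => setIntegral_iterate hT1 hfB k hs,
            Finset.sum_const, Finset.card_range, nsmul_eq_mul, ← mul_assoc, one_div,
            inv_mul_cancel₀ hM'', one_mul]
        · intro k _
          exact (hebd k).integrable.integrableOn
      · exact stronglyMeasurable_condExp.aestronglyMeasurable
    -- the `L²` norm
    have hint : ∀ n n', Integrable (fun x => e n x * (starRingEnd ℂ) (e n' x)) μ := fun n n' =>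
      ((hebd n).mul (hebd n').conj hC).integrable
    have hcor : ∀ n n' : ℕ, ∫ x, e n x * (starRingEnd ℂ) (e n' x) ∂μ =
        corr μ T 1 f (Fin.cons (-(n : ℤ) + n') 0) := by
      intro n n'
      rw [corr_one]
      have h3 : ∀ x, e n x * (starRingEnd ℂ) (e n' x) =
          (fun y => f y * (starRingEnd ℂ) (f ((T ^ (-(n : ℤ) + n')) y))) ((⇑T)^[n] x) := by
        intro x
        simp only [he]
        rw [← zpow_nat T n x, ← Equiv.Perm.mul_apply, ← zpow_add, ← zpow_nat T n' x]
        congr 4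
        ring_nf
      rw [integral_congr_ae (ae_of_all _ h3)]
      refine integral_comp_mp (hT1.iterate n)
        (g := fun y => f y * (starRingEnd ℂ) (f ((T ^ (-(n : ℤ) + n')) y))) ?_
      exact (hf.meas.mul (Complex.continuous_conj.measurable.comp
        (hf.meas.comp (hT _).measurable))).aestronglyMeasurable
    have hrow : ∀ n : ℕ, ‖∑ n' ∈ range M, corr μ T 1 f (Fin.cons (-(n : ℤ) + n') 0) -
        (M : ℂ) * c‖ ≤ ε * M := by
      intro n
      have h3 := hL (Fin.cons (-(n : ℤ)) 0) (Fin.cons M 0) (by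
        intro j
        have : j = 0 := Subsingleton.elim _ _
        rw [this, Fin.cons_zero]
        exact hML)
      rw [sum_bx_cons, vl_cons, vl_zero, mul_one] at h3
      simp only [bx_zero, Finset.sum_singleton] at h3
      push_cast at h3
      exact h3
    have hS : ((∫ x, ‖∑ n ∈ Finset.range M, e n x‖ ^ 2 ∂μ : ℝ) : ℂ)
        = ∑ n ∈ Finset.range M, ∑ n' ∈ Finset.range M, corr μ T 1 f (Fin.cons (-(n : ℤ) + n') 0) := by
      simp_rw [← hcor]
      rw [← integral_complex_ofReal]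
      rw [Finset.sum_congr rfl fun n _ => (integral_finsetSum _ fun n' _ => hint n n').symm]
      rw [← integral_finsetSum _ fun n _ => integrable_finsetSum _ fun n' _ => hint n n']
      refine integral_congr_ae (ae_of_all _ fun x => ?_)
      simp only
      rw [← Finset.sum_mul_sum, ← map_sum, Complex.mul_conj, Complex.normSq_eq_norm_sq]
    have hS2 : ∫ x, ‖∑ n ∈ Finset.range M, e n x‖ ^ 2 ∂μ ≤ M ^ 2 * (c.re + ε) := by
      have h4 : ∫ x, ‖∑ n ∈ Finset.range M, e n x‖ ^ 2 ∂μ = (∑ n ∈ Finset.range M,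
          ∑ n' ∈ Finset.range M, corr μ T 1 f (Fin.cons (-(n : ℤ) + n') 0)).re := by
        rw [← hS, Complex.ofReal_re]
      rw [h4, Complex.re_sum]
      calc ∑ n ∈ Finset.range M, (∑ n' ∈ Finset.range M,
            corr μ T 1 f (Fin.cons (-(n : ℤ) + n') 0)).re ≤
            ∑ n ∈ Finset.range M, (M * c.re + ε * M) := by
              refine Finset.sum_le_sum fun n _ => ?_
              have h5 := (Complex.abs_re_le_norm _).trans (hrow n)
              rw [Complex.sub_re, ← Complex.ofReal_natCast, Complex.re_ofReal_mul] at h5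
              have h6 := (abs_le.1 h5).2
              linarith
        _ = M ^ 2 * (c.re + ε) := by
              rw [Finset.sum_const, Finset.card_range, nsmul_eq_mul]
              ring
    have hg2 : ∫ x, ‖g x‖ ^ 2 ∂μ ≤ c.re + ε := by
      have h2 : ∫ x, ‖g x‖ ^ 2 ∂μ =
          (1 / (M : ℝ)) ^ 2 * ∫ x, ‖∑ n ∈ Finset.range M, e n x‖ ^ 2 ∂μ := by
        rw [← integral_const_mul]
        refine integral_congr_ae (ae_of_all _ fun x => ?_)
        simp only [hg]
        rw [norm_mul, mul_pow, norm_div, norm_one, Complex.norm_natCast]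
      rw [h2]
      calc (1 / (M : ℝ)) ^ 2 * ∫ x, ‖∑ n ∈ Finset.range M, e n x‖ ^ 2 ∂μ
          ≤ (1 / (M : ℝ)) ^ 2 * (M ^ 2 * (c.re + ε)) := by gcongr
        _ = c.re + ε := by field_simp
    have hg0 : 0 ≤ ∫ x, ‖g x‖ ^ 2 ∂μ := integral_nonneg fun x => by positivity
    have hkeq : hk μ T 0 f = eLpNorm (μ[g | MeasurableSpace.invariants (⇑T)]) 2 μ ^ 2 := by
      rw [hk]
      have h2 := eLpNorm_nnreal_pow_eq_lintegral (μ := μ)
        (f := μ[g | MeasurableSpace.invariants (⇑T)]) (p := 2) (by norm_num)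
      have h3 : eLpNorm (μ[g | MeasurableSpace.invariants (⇑T)]) 2 μ ^ 2
          = ∫⁻ x, ‖(μ[g | MeasurableSpace.invariants (⇑T)]) x‖ₑ ^ 2 ∂μ := by
        simpa using h2
      rw [h3]
      refine lintegral_congr_ae ?_
      filter_upwards [h1] with x hx
      rw [hx]
    refine ⟨hg0.trans hg2, ?_⟩
    rw [hkeq]
    calc eLpNorm (μ[g | MeasurableSpace.invariants (⇑T)]) 2 μ ^ 2 ≤ eLpNorm g 2 μ ^ 2 := by
          gcongr
          exact eLpNorm_condExp_le_eLpNorm _ (by norm_num)
      _ = ENNReal.ofReal (∫ x, ‖g x‖ ^ 2 ∂μ) := by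
          rw [eLpNorm_two_eq hgbd, ← ENNReal.ofReal_pow (Real.sqrt_nonneg _), Real.sq_sqrt hg0]
      _ ≤ ENNReal.ofReal (c.re + ε) := ENNReal.ofReal_le_ofReal hg2
  constructor
  · refine le_of_forall_pos_le_add fun ε hε => (key ε hε).1
  · have h2 : Tendsto (fun M : ℕ => ENNReal.ofReal (c.re + 1 / ((M : ℝ) + 1))) atTop
        (𝓝 (ENNReal.ofReal (c.re + 0))) :=
      (ENNReal.continuous_ofReal.tendsto _).comp
        (tendsto_one_div_add_atTop_nhds_zero_nat.const_add _)
    rw [add_zero] at h2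
    exact ge_of_tendsto h2 (Eventually.of_forall fun M => (key _ (by positivity)).2)

theorem hk_le_um (hT : ∀ n : ℤ, MeasurePreserving ⇑(T ^ n) μ μ)
    (hUM : ∀ (r : ℕ) (C : ℝ) (f : X → ℂ), BM C f → ∃ z, UM (corr μ T r f) z) (k : ℕ) :
    ∀ {C : ℝ} {f : X → ℂ}, BM C f → ∀ c, UM (corr μ T (k + 1) f) c →
      0 ≤ c.re ∧ hk μ T k f ≤ ENNReal.ofReal c.re := by
  induction k with
  | zero =>
    intro C f hf c hc
    exact hk_zero_le hT hf hc
  | succ k ih =>
    intro C f hf c hc
    choose z hz using fun t : ℕ => hUM (k + 1) (C * C) (dd T (1 + (t : ℤ)) f) (hf.dd hT _)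
    have hz' := fun t : ℕ => ih (hf.dd hT (1 + (t : ℤ))) (z t) (hz t)
    have key : ∀ ε : ℝ, 0 < ε → ∃ L : ℕ, ∀ H : ℕ, L ≤ H →
        |∑ t ∈ range H, (z t).re - H * c.re| ≤ 2 * ε * H := by
      intro ε hε
      obtain ⟨L, hL⟩ := hc ε hε
      refine ⟨L, fun H hH => ?_⟩
      choose Lt hLt using fun t : ℕ => hz t ε hε
      set S : ℕ := max (max L 1) ((range H).sup Lt) with hS
      set s' : Fin (k + 1) → ℕ := fun _ => S with hs'
      have hV : 0 < vl s' := vl_pos fun j => (le_max_right _ _).trans (le_max_left _ _)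
      have h1 := hL (Fin.cons 1 0) (Fin.cons H s') (by
        intro j
        refine Fin.cases ?_ (fun i => ?_) j
        · rw [Fin.cons_zero]; exact hH
        · rw [Fin.cons_succ]; exact (le_max_left _ _).trans (le_max_left _ _))
      rw [sum_bx_cons, vl_cons] at h1
      simp only [corr_cons] at h1
      have h2 : ∀ t ∈ range H, |(∑ h ∈ bx 0 s', (starRingEnd ℂ)
          (corr μ T (k + 1) (dd T (1 + (t : ℤ)) f) h)).re - vl s' * (z t).re| ≤ ε * vl s' := by
        intro t ht
        have h3 := hLt t 0 s' fun j => (Finset.le_sup ht).trans (le_max_right _ _)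
        have h4 := (Complex.abs_re_le_norm _).trans h3
        rw [Complex.sub_re, Complex.re_ofReal_mul] at h4
        rw [← map_sum, Complex.conj_re]
        exact h4
      have h5 := (Complex.abs_re_le_norm _).trans h1
      rw [Complex.sub_re, Complex.re_ofReal_mul, Complex.re_sum] at h5
      have h6 : |∑ t ∈ range H, (∑ h ∈ bx 0 s', (starRingEnd ℂ)
          (corr μ T (k + 1) (dd T (1 + (t : ℤ)) f) h)).re - vl s' * ∑ t ∈ range H, (z t).re| ≤
          H * (ε * vl s') := by
        rw [Finset.mul_sum, ← Finset.sum_sub_distrib]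
        refine (Finset.abs_sum_le_sum_abs _ _).trans ((Finset.sum_le_sum h2).trans (le_of_eq ?_))
        rw [Finset.sum_const, card_range, nsmul_eq_mul]
      have h7 : vl s' * |∑ t ∈ range H, (z t).re - H * c.re| ≤ vl s' * (2 * ε * H) := by
        rw [← abs_of_pos hV, ← abs_mul, abs_of_pos hV, abs_le]
        rw [abs_le] at h5 h6
        constructor <;> nlinarith [h5.1, h5.2, h6.1, h6.2]
      exact le_of_mul_le_mul_left h7 hV
    have hcre : 0 ≤ c.re := by
      refine le_of_forall_pos_le_add fun ε hε => ?_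
      obtain ⟨L, hL⟩ := key (ε / 2) (by positivity)
      have h1 := hL (L + 1) (by omega)
      have h2 : 0 ≤ ∑ t ∈ range (L + 1), (z t).re := Finset.sum_nonneg fun t _ => (hz' t).1
      have h3 : (0 : ℝ) < ((L + 1 : ℕ) : ℝ) := by positivity
      rw [abs_le] at h1
      have h4 : 0 ≤ ((L + 1 : ℕ) : ℝ) * (c.re + ε) := by nlinarith [h1.2]
      exact nonneg_of_mul_nonneg_right h4 h3
    refine ⟨hcre, ?_⟩
    have key2 : ∀ ε : ℝ, 0 < ε → hk μ T (k + 1) f ≤ ENNReal.ofReal (c.re + ε) := by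
      intro ε hε
      obtain ⟨L, hL⟩ := key (ε / 2) (by positivity)
      rw [hk]
      refine limsup_le_of_le (by isBoundedDefault) ?_
      filter_upwards [eventually_ge_atTop L, eventually_gt_atTop 0] with H hH hH0
      have hHpos : (0 : ℝ) < H := by exact_mod_cast hH0
      have h1 : ∑ h ∈ Finset.Icc 1 H, hk μ T k (fun x => (starRingEnd ℂ) (f x) * f ((⇑T)^[h] x)) ≤
          ENNReal.ofReal (∑ t ∈ range H, (z t).re) := by
        rw [ENNReal.ofReal_sum_of_nonneg fun t _ => (hz' t).1]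
        have h2 : Finset.Icc 1 H = Finset.Ico 1 (H + 1) := by
          ext x; simp only [Finset.mem_Icc, Finset.mem_Ico]; omega
        rw [h2, Finset.sum_Ico_eq_sum_range, Nat.add_sub_cancel]
        refine Finset.sum_le_sum fun t _ => ?_
        have h3 : (fun x => (starRingEnd ℂ) (f x) * f ((⇑T)^[1 + t] x)) =
            dd T (1 + (t : ℤ)) f := by
          ext x
          simp only [dd]
          rw [← zpow_nat T (1 + t) x]
          push_cast
          rfl
        rw [h3]
        exact (hz' t).2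
      have h4 : ∑ t ∈ range H, (z t).re ≤ (c.re + ε) * H := by
        have := (abs_le.1 (hL H hH)).2
        linarith
      calc (∑ h ∈ Finset.Icc 1 H, hk μ T k (fun x => (starRingEnd ℂ) (f x) * f ((⇑T)^[h] x))) / H
          ≤ ENNReal.ofReal ((c.re + ε) * H) / H := by
            gcongr
            exact h1.trans (ENNReal.ofReal_le_ofReal h4)
        _ = ENNReal.ofReal (c.re + ε) := by
            rw [ENNReal.ofReal_mul (by positivity), ENNReal.ofReal_natCast,
              ENNReal.mul_div_cancel_right (by exact_mod_cast hH0.ne') (ENNReal.natCast_ne_top H)]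
    have h2 : Tendsto (fun M : ℕ => ENNReal.ofReal (c.re + 1 / ((M : ℝ) + 1))) atTop
        (𝓝 (ENNReal.ofReal (c.re + 0))) :=
      (ENNReal.continuous_ofReal.tendsto _).comp
        (tendsto_one_div_add_atTop_nhds_zero_nat.const_add _)
    rw [add_zero] at h2
    exact ge_of_tendsto h2 (Eventually.of_forall fun M => key2 _ (by positivity))

/-- cube averages -/
noncomputable def KA (μ : Measure X) (T : Equiv.Perm X) (r : ℕ) (f : X → ℂ) (H : ℕ) : ℂ :=
  (1 / (H : ℂ) ^ r) * ∑ h ∈ bx (0 : Fin r → ℤ) (fun _ => H), corr μ T r f h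

theorem vl_const {r : ℕ} (H : ℕ) : vl (fun _ : Fin r => H) = (H : ℝ) ^ r := by
  simp [vl]

omit [IsProbabilityMeasure μ] in
theorem KA_tendsto {r : ℕ} {f : X → ℂ} {c : ℂ} (h : UM (corr μ T r f) c) :
    Tendsto (KA μ T r f) atTop (𝓝 c) := by
  rw [Metric.tendsto_atTop]
  intro ε hε
  obtain ⟨L, hL⟩ := h (ε / 2) (by positivity)
  refine ⟨max L 1, fun H hH => ?_⟩
  have h1 := hL 0 (fun _ => H) fun _ => (le_max_left _ _).trans hH
  have hHpos : 0 < H := lt_of_lt_of_le Nat.one_pos ((le_max_right _ _).trans hH)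
  have hHr : (0 : ℝ) < (H : ℝ) ^ r := by positivity
  rw [vl_const] at h1
  push_cast at h1
  have e : KA μ T r f H - c = (1 / (H : ℂ) ^ r) *
      (∑ h ∈ bx (0 : Fin r → ℤ) (fun _ => H), corr μ T r f h - (H : ℂ) ^ r * c) := by
    have hH0 : (H : ℂ) ^ r ≠ 0 := pow_ne_zero _ (by exact_mod_cast hHpos.ne')
    rw [KA, mul_sub, ← mul_assoc, one_div, inv_mul_cancel₀ hH0, one_mul]
  rw [dist_eq_norm, e, norm_mul, norm_div, norm_one, norm_pow, Complex.norm_natCast]
  calc 1 / (H : ℝ) ^ r * ‖∑ h ∈ bx (0 : Fin r → ℤ) (fun _ => H), corr μ T r f h -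
        (H : ℂ) ^ r * c‖ ≤ 1 / (H : ℝ) ^ r * (ε / 2 * (H : ℝ) ^ r) := by gcongr
    _ = ε / 2 := by field_simp
    _ < ε := by linarith

end

theorem weyl_hk_zero (W : WeylSystem) (r : ℕ) {C : ℝ} {f : (Fin W.D → UnitAddCircle) → ℂ}
    (hf : BM C f) (h : Tendsto (KA (haarT W.D) W.T (r + 1) f) atTop (𝓝 0)) :
    hk (haarT W.D) W.T r f = 0 := by
  obtain ⟨z, hz⟩ := um_weyl W (r + 1) hf
  have h1 : z = 0 := tendsto_nhds_unique (KA_tendsto hz) h
  have h2 := (hk_le_um (W_mp W) (fun r C f hf => um_weyl W r hf) r hf z hz).2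
  rw [h1, Complex.zero_re, ENNReal.ofReal_zero] at h2
  exact le_antisymm h2 bot_le

end Pool.Agent.W742.CU
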