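import Pool.Agent.W742.CU.HKup
import Pool.Agent.H767R2.Semi3

/-!
# Cube averages tend to zero along van der Corput
-/

set_option autoImplicit false

open Finset Filter Topology MeasureTheory
open scoped ENNReal

namespace Pool.Agent.W742.CU

open Pool.Agent.H767R2

theorem sum_shift_le (g : ℕ → ℂ) (hg : ∀ t, ‖g t‖ ≤ 1) (H j : ℕ) :
    ‖∑ t ∈ range H, g t - ∑ t ∈ range H, g (t + j)‖ ≤ 2 * j := by
  have h1 : ∑ t ∈ range (H + j), g t = ∑ t ∈ range H, g t + ∑ i ∈ range j, g (H + i) :=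
    Finset.sum_range_add _ _ _
  have h2 : ∑ t ∈ range (H + j), g t = ∑ i ∈ range j, g i + ∑ t ∈ range H, g (j + t) := by
    rw [add_comm H j]
    exact Finset.sum_range_add _ _ _
  have h3 : ∑ t ∈ range H, g t - ∑ t ∈ range H, g (t + j) =
      ∑ i ∈ range j, g i - ∑ i ∈ range j, g (H + i) := by
    have h4 : ∑ t ∈ range H, g (t + j) = ∑ t ∈ range H, g (j + t) :=
      Finset.sum_congr rfl fun t _ => by rw [add_comm]
    rw [h4]
    linear_combination h1.symm.trans h2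
  rw [h3]
  have h5 : ∀ f : ℕ → ℂ, (∀ i, ‖f i‖ ≤ 1) → ‖∑ i ∈ range j, f i‖ ≤ j := by
    intro f hf
    refine (norm_sum_le _ _).trans ((Finset.sum_le_sum fun i _ => hf i).trans (le_of_eq ?_))
    simp
  refine (norm_sub_le _ _).trans ?_
  have := h5 g hg
  have := h5 (fun i => g (H + i)) fun i => hg _
  linarith

section

variable {X : Type*} [MeasurableSpace X] {μ : Measure X} [IsProbabilityMeasure μ]
  {T : Equiv.Perm X}

omit [MeasurableSpace X] in
theorem cube_dd (r : ℕ) (f : X → ℂ) (t : ℤ) (h : Fin r → ℤ) (x : X) :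
    cube T r (dd T t f) h x = (starRingEnd ℂ) (cube T r f h x) * cube T r f h ((T ^ t) x) := by
  simp only [cube, map_prod]
  rw [← Finset.prod_mul_distrib]
  refine Finset.prod_congr rfl fun ε _ => ?_
  rw [dd, cj_mul, cj_conj, ← Equiv.Perm.mul_apply, ← Equiv.Perm.mul_apply, ← zpow_add, ← zpow_add,
    add_comm]

theorem cj_measurable (k : ℕ) {f : X → ℂ} (hf : Measurable f) : Measurable fun x => cj k (f x) :=
  (continuous_cj k).measurable.comp hf

theorem cube_BM (hT : ∀ n : ℤ, MeasurePreserving ⇑(T ^ n) μ μ) (r : ℕ) {f : X → ℂ}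
    (hf : BM 1 f) (h : Fin r → ℤ) : BM 1 (cube T r f h) := by
  refine ⟨?_, fun x => ?_, zero_le_one⟩
  · refine Finset.measurable_fun_prod _ fun ε _ => ?_
    exact cj_measurable _ (hf.meas.comp (hT _).measurable)
  · rw [cube, norm_prod]
    refine Finset.prod_le_one (fun _ _ => norm_nonneg _) fun ε _ => ?_
    rw [norm_cj]
    exact hf.bd _

/-- autocorrelations -/
noncomputable def wz (μ : Measure X) (T : Equiv.Perm X) (G : X → ℂ) (t : ℤ) : ℂ :=
  ∫ x, (starRingEnd ℂ) (G x) * G ((T ^ t) x) ∂μ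

theorem wz_eq (hT : ∀ n : ℤ, MeasurePreserving ⇑(T ^ n) μ μ) {G : X → ℂ} (hG : BM 1 G) (s t : ℤ) :
    ∫ x, (starRingEnd ℂ) (G ((T ^ s) x)) * G ((T ^ t) x) ∂μ = wz μ T G (t - s) := by
  have h1 : ∀ x, (starRingEnd ℂ) (G ((T ^ s) x)) * G ((T ^ t) x) =
      (fun y => (starRingEnd ℂ) (G y) * G ((T ^ (t - s)) y)) ((T ^ s) x) := by
    intro x
    show _ = (starRingEnd ℂ) (G ((T ^ s) x)) * G ((T ^ (t - s)) ((T ^ s) x))
    rw [← Equiv.Perm.mul_apply, ← zpow_add, sub_add_cancel]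
  rw [integral_congr_ae (ae_of_all _ h1), wz]
  refine integral_comp_mp (hT s) (g := fun y => (starRingEnd ℂ) (G y) * G ((T ^ (t - s)) y)) ?_
  exact ((Complex.continuous_conj.measurable.comp hG.meas).mul
    (hG.meas.comp (hT _).measurable)).aestronglyMeasurable

theorem wz_neg (hT : ∀ n : ℤ, MeasurePreserving ⇑(T ^ n) μ μ) {G : X → ℂ} (hG : BM 1 G) (t : ℤ) :
    wz μ T G (-t) = (starRingEnd ℂ) (wz μ T G t) := by
  have h1 := wz_eq hT hG t 0
  rw [zero_sub] at h1
  rw [← h1, wz, ← integral_conj]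
  refine integral_congr_ae (ae_of_all _ fun x => ?_)
  simp only [map_mul, Complex.conj_conj, zpow_zero, Equiv.Perm.coe_one, id_eq]
  ring

omit [IsProbabilityMeasure μ] in
theorem corr_dd (r : ℕ) (f : X → ℂ) (t : ℤ) (h : Fin r → ℤ) :
    corr μ T r (dd T t f) h = wz μ T (cube T r f h) t := by
  rw [corr, wz]
  simp only [cube_dd]

theorem int_of_meas {F : X → ℝ} {C : ℝ} (hF : Measurable F) (hb : ∀ x, ‖F x‖ ≤ C) :
    Integrable F μ :=
  Integrable.of_bound hF.aestronglyMeasurable C (ae_of_all _ hb)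

/-- the basic averaging inequality -/
theorem avg_ineq (hT : ∀ n : ℤ, MeasurePreserving ⇑(T ^ n) μ μ) {G : X → ℂ} (hG : BM 1 G)
    (M H : ℕ) (hM : 0 < M) {η : ℝ} (hη : 0 < η) :
    ‖∑ t ∈ range H, wz μ T G t‖ ≤ H * (η / 2 + (1 / (2 * η * M ^ 2)) *
      ∫ x, ‖∑ j ∈ range M, G ((T ^ (j : ℤ)) x)‖ ^ 2 ∂μ) + 2 * M := by
  have hM' : (0 : ℝ) < M := by exact_mod_cast hM
  set S : ℕ → X → ℂ := fun H x => ∑ t ∈ range H, G ((T ^ (t : ℤ)) x) with hS
  have hSm : ∀ H, Measurable (S H) := fun H =>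
    Finset.measurable_sum _ fun t _ => hG.meas.comp (hT _).measurable
  have hSb : ∀ H x, ‖S H x‖ ≤ H := by
    intro H x
    refine (norm_sum_le _ _).trans ((Finset.sum_le_sum fun i _ => hG.bd _).trans (le_of_eq ?_))
    simp
  have hSi : ∀ H, Integrable (fun x => ‖S H x‖) μ := fun H =>
    int_of_meas (hSm H).norm (C := H) fun x => by rw [norm_norm]; exact hSb H x
  have hSi2 : ∀ H, Integrable (fun x => ‖S H x‖ ^ 2) μ := fun H =>
    int_of_meas ((hSm H).norm.pow_const 2) (C := (H : ℝ) ^ 2) fun x => by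
      rw [norm_pow, norm_norm]
      have := hSb H x
      gcongr
  -- step 1
  have h1 : ‖∑ t ∈ range H, wz μ T G t‖ ≤ ∫ x, ‖S H x‖ ∂μ := by
    have e : ∑ t ∈ range H, wz μ T G t = ∫ x, (starRingEnd ℂ) (G x) * S H x ∂μ := by
      simp only [wz, hS]
      rw [← integral_finsetSum]
      · refine integral_congr_ae (ae_of_all _ fun x => ?_)
        simp only
        rw [Finset.mul_sum]
      · intro t _
        exact (BM.int (C := 1) ⟨(Complex.continuous_conj.measurable.comp hG.meas).mul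
          (hG.meas.comp (hT _).measurable), fun x => by
            rw [norm_mul]
            refine mul_le_one₀ ?_ (norm_nonneg _) (hG.bd _)
            show ‖(starRingEnd ℂ) (G x)‖ ≤ 1
            rw [RCLike.norm_conj]
            exact hG.bd _, zero_le_one⟩)
    rw [e]
    refine norm_integral_le_of_norm_le (hSi H) (ae_of_all _ fun x => ?_)
    rw [norm_mul, RCLike.norm_conj]
    exact mul_le_of_le_one_left (norm_nonneg _) (hG.bd x)
  -- step 2
  have h2 : ∀ x, ‖S H x‖ ≤ 2 * M + (1 / M) * ∑ t ∈ range H, ‖S M ((T ^ (t : ℤ)) x)‖ := by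
    intro x
    have e1 : ∀ j ∈ range M, ‖S H x - S H ((T ^ (j : ℤ)) x)‖ ≤ 2 * M := by
      intro j hj
      have h3 := sum_shift_le (fun t => G ((T ^ (t : ℤ)) x)) (fun t => hG.bd _) H j
      have h4 : ∑ t ∈ range H, G ((T ^ (((t + j : ℕ)) : ℤ)) x) = S H ((T ^ (j : ℤ)) x) := by
        refine Finset.sum_congr rfl fun t _ => ?_
        rw [← Equiv.Perm.mul_apply, ← zpow_add]
        push_cast
        rfl
      rw [h4] at h3
      refine h3.trans ?_
      have : (j : ℝ) ≤ M := by exact_mod_cast (Finset.mem_range.1 hj).le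
      linarith
    have e2 : ∑ j ∈ range M, S H ((T ^ (j : ℤ)) x) = ∑ t ∈ range H, S M ((T ^ (t : ℤ)) x) := by
      simp only [hS]
      rw [Finset.sum_comm]
      refine Finset.sum_congr rfl fun t _ => Finset.sum_congr rfl fun j _ => ?_
      rw [← Equiv.Perm.mul_apply, ← Equiv.Perm.mul_apply, ← zpow_add, ← zpow_add, add_comm]
    have e3 : (M : ℂ) * S H x = ∑ j ∈ range M, (S H x - S H ((T ^ (j : ℤ)) x)) +
        ∑ t ∈ range H, S M ((T ^ (t : ℤ)) x) := by
      rw [Finset.sum_sub_distrib, e2]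
      simp
    have e4 : (M : ℝ) * ‖S H x‖ ≤ M * (2 * M) + ∑ t ∈ range H, ‖S M ((T ^ (t : ℤ)) x)‖ := by
      calc (M : ℝ) * ‖S H x‖ = ‖(M : ℂ) * S H x‖ := by rw [norm_mul, Complex.norm_natCast]
        _ ≤ ∑ j ∈ range M, 2 * (M : ℝ) + ∑ t ∈ range H, ‖S M ((T ^ (t : ℤ)) x)‖ := by
            rw [e3]
            refine (norm_add_le _ _).trans (add_le_add ?_ (norm_sum_le _ _))
            exact (norm_sum_le _ _).trans (Finset.sum_le_sum e1)
        _ = _ := by rw [Finset.sum_const, card_range, nsmul_eq_mul]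
    have e5 : (M : ℝ) * ‖S H x‖ ≤
        M * (2 * M + (1 / M) * ∑ t ∈ range H, ‖S M ((T ^ (t : ℤ)) x)‖) := by
      refine e4.trans (le_of_eq ?_)
      field_simp
    exact le_of_mul_le_mul_left e5 hM'
  have hSiT : ∀ t : ℤ, Integrable (fun x => ‖S M ((T ^ t) x)‖) μ := fun t =>
    (hT t).integrable_comp_of_integrable (hSi M)
  have hSint : ∀ t : ℤ, ∫ x, ‖S M ((T ^ t) x)‖ ∂μ = ∫ x, ‖S M x‖ ∂μ := by
    intro t
    have h3 := integral_map (μ := μ) (φ := ⇑(T ^ t)) (hT t).measurable.aemeasurable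
      (f := fun x => ‖S M x‖) (hSm M).norm.aestronglyMeasurable
    rw [(hT t).map_eq] at h3
    exact h3.symm
  have h3 : ∫ x, ‖S H x‖ ∂μ ≤ 2 * M + (H / M) * ∫ x, ‖S M x‖ ∂μ := by
    calc ∫ x, ‖S H x‖ ∂μ ≤ ∫ x, (2 * M + (1 / M) * ∑ t ∈ range H, ‖S M ((T ^ (t : ℤ)) x)‖) ∂μ := by
          refine integral_mono (hSi H) ?_ h2
          exact (integrable_const _).add
            ((integrable_finsetSum _ fun (t : ℕ) _ => hSiT (t : ℤ)).const_mul _)
      _ = 2 * M + (H / M) * ∫ x, ‖S M x‖ ∂μ := by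
          rw [integral_add (integrable_const _)
            ((integrable_finsetSum _ fun (t : ℕ) _ => hSiT (t : ℤ)).const_mul _),
            integral_const_mul (1 / (M : ℝ)),
            integral_finsetSum _ fun (t : ℕ) _ => hSiT (t : ℤ)]
          simp only [hSint, integral_const, probReal_univ, one_smul, Finset.sum_const, card_range,
            nsmul_eq_mul]
          ring
  have h4 : ∫ x, ‖S M x‖ ∂μ ≤ η * M / 2 + (1 / (2 * η * M)) * ∫ x, ‖S M x‖ ^ 2 ∂μ := by
    calc ∫ x, ‖S M x‖ ∂μ ≤ ∫ x, (η * M / 2 + (1 / (2 * η * M)) * ‖S M x‖ ^ 2) ∂μ := by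
          refine integral_mono (hSi M) ((integrable_const _).add ((hSi2 M).const_mul _)) fun x => ?_
          have e : η * M / 2 + (1 / (2 * η * M)) * ‖S M x‖ ^ 2 - ‖S M x‖ =
              (η * M - ‖S M x‖) ^ 2 / (2 * η * M) := by
            field_simp
            ring
          have e2 : 0 ≤ (η * M - ‖S M x‖) ^ 2 / (2 * η * M) := by positivity
          show ‖S M x‖ ≤ η * M / 2 + (1 / (2 * η * M)) * ‖S M x‖ ^ 2
          linarith
      _ = _ := by
          rw [integral_add (integrable_const _) ((hSi2 M).const_mul _),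
            integral_const_mul (1 / (2 * η * (M : ℝ))) (fun x => ‖S M x‖ ^ 2)]
          simp
  calc ‖∑ t ∈ range H, wz μ T G t‖ ≤ 2 * M + (H / M) * ∫ x, ‖S M x‖ ∂μ := h1.trans h3
    _ ≤ 2 * M + (H / M) * (η * M / 2 + (1 / (2 * η * M)) * ∫ x, ‖S M x‖ ^ 2 ∂μ) := by gcongr
    _ = _ := by
        simp only [hS]
        field_simp
        ring

omit [IsProbabilityMeasure μ] in
theorem KA_succ (r : ℕ) (f : X → ℂ) (H : ℕ) :
    KA μ T (r + 1) f H = (1 / (H : ℂ) ^ (r + 1)) * ∑ h ∈ bx (0 : Fin r → ℤ) (fun _ => H),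
      (starRingEnd ℂ) (∑ t ∈ range H, wz μ T (cube T r f h) t) := by
  have e1 : (0 : Fin (r + 1) → ℤ) = Fin.cons 0 0 := by
    ext j
    refine Fin.cases ?_ (fun i => ?_) j <;> simp
  have e2 : (fun _ : Fin (r + 1) => H) = Fin.cons H (fun _ : Fin r => H) := by
    ext j
    refine Fin.cases ?_ (fun i => ?_) j <;> simp
  rw [KA, e1, e2, sum_bx_cons, Finset.sum_comm]
  congr 1
  refine Finset.sum_congr rfl fun h _ => ?_
  rw [map_sum]
  refine Finset.sum_congr rfl fun t _ => ?_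
  rw [corr_cons, corr_dd, zero_add]

theorem int_S_sq (hT : ∀ n : ℤ, MeasurePreserving ⇑(T ^ n) μ μ) {G : X → ℂ} (hG : BM 1 G)
    (M : ℕ) : ((∫ x, ‖∑ j ∈ range M, G ((T ^ (j : ℤ)) x)‖ ^ 2 ∂μ : ℝ) : ℂ) =
      ∑ j ∈ range M, ∑ j' ∈ range M, wz μ T G ((j' : ℤ) - j) := by
  have hint : ∀ j j' : ℤ, Integrable (fun x => (starRingEnd ℂ) (G ((T ^ j) x)) *
      G ((T ^ j') x)) μ := fun j j' =>
    (BM.int (C := 1) ⟨(Complex.continuous_conj.measurable.comp
      (hG.meas.comp (hT _).measurable)).mul (hG.meas.comp (hT _).measurable), fun x => by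
        rw [norm_mul]
        refine mul_le_one₀ ?_ (norm_nonneg _) (hG.bd _)
        show ‖(starRingEnd ℂ) (G ((T ^ j) x))‖ ≤ 1
        rw [RCLike.norm_conj]
        exact hG.bd _, zero_le_one⟩)
  rw [← integral_complex_ofReal]
  simp_rw [← wz_eq hT hG]
  rw [Finset.sum_congr rfl fun (n : ℕ) _ =>
    (integral_finsetSum (range M) fun (n' : ℕ) _ => hint (n : ℤ) n').symm]
  rw [← integral_finsetSum _ fun (n : ℕ) _ => integrable_finsetSum _ fun (n' : ℕ) _ =>
    hint (n : ℤ) n']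
  refine integral_congr_ae (ae_of_all _ fun x => ?_)
  simp only
  rw [← Finset.sum_mul_sum, ← map_sum, mul_comm, Complex.mul_conj, Complex.normSq_eq_norm_sq]

/-- van der Corput for the cube averages -/
theorem KA_ineq (hT : ∀ n : ℤ, MeasurePreserving ⇑(T ^ n) μ μ) (r : ℕ) {f : X → ℂ}
    (hf : BM 1 f) (M H : ℕ) (hM : 0 < M) (hH : 0 < H) {η : ℝ} (hη : 0 < η) :
    ‖KA μ T (r + 1) f H‖ ≤ η / 2 + 2 * M / H + (1 / (2 * η * M ^ 2)) *
      ∑ j ∈ range M, ∑ j' ∈ range M, ‖KA μ T r (dd T ((j' : ℤ) - j) f) H‖ := by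
  have hM' : (0 : ℝ) < M := by exact_mod_cast hM
  have hH' : (0 : ℝ) < H := by exact_mod_cast hH
  set B := bx (0 : Fin r → ℤ) (fun _ => H) with hB
  have hcard : (B.card : ℝ) = (H : ℝ) ^ r := by rw [hB, card_bx', vl_const]
  set I : (Fin r → ℤ) → ℝ := fun h =>
    ∫ x, ‖∑ j ∈ range M, cube T r f h ((T ^ (j : ℤ)) x)‖ ^ 2 ∂μ with hI
  have hI0 : ∀ h, 0 ≤ I h := fun h => integral_nonneg fun x => by positivity
  have h1 : ∑ h ∈ B, I h ≤ (H : ℝ) ^ r *
      ∑ j ∈ range M, ∑ j' ∈ range M, ‖KA μ T r (dd T ((j' : ℤ) - j) f) H‖ := by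
    have e1 : ((∑ h ∈ B, I h : ℝ) : ℂ) = ∑ j ∈ range M, ∑ j' ∈ range M, ((H : ℂ) ^ r *
        KA μ T r (dd T ((j' : ℤ) - j) f) H) := by
      push_cast
      have e2 : ∀ h ∈ B, ((I h : ℝ) : ℂ) = ∑ j ∈ range M, ∑ j' ∈ range M,
          corr μ T r (dd T ((j' : ℤ) - j) f) h := by
        intro h _
        simp only [hI, corr_dd]
        exact int_S_sq hT (cube_BM hT r hf h) M
      rw [Finset.sum_congr rfl e2, Finset.sum_comm]
      refine Finset.sum_congr rfl fun j _ => ?_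
      rw [Finset.sum_comm]
      refine Finset.sum_congr rfl fun j' _ => ?_
      have hH0 : (H : ℂ) ^ r ≠ 0 := pow_ne_zero _ (by exact_mod_cast hH.ne')
      rw [KA, ← mul_assoc, one_div, mul_inv_cancel₀ hH0, one_mul]
    have e3 : ∑ h ∈ B, I h = ‖((∑ h ∈ B, I h : ℝ) : ℂ)‖ := by
      rw [Complex.norm_real, Real.norm_of_nonneg (Finset.sum_nonneg fun h _ => hI0 h)]
    rw [e3, e1, Finset.mul_sum]
    refine (norm_sum_le _ _).trans (Finset.sum_le_sum fun j _ => ?_)
    rw [Finset.mul_sum]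
    refine (norm_sum_le _ _).trans (Finset.sum_le_sum fun j' _ => ?_)
    rw [norm_mul, norm_pow, Complex.norm_natCast]
  have h2 : ‖KA μ T (r + 1) f H‖ ≤ (1 / (H : ℝ) ^ (r + 1)) * ∑ h ∈ B,
      (H * (η / 2 + (1 / (2 * η * M ^ 2)) * I h) + 2 * M) := by
    rw [KA_succ, norm_mul, norm_div, norm_one, norm_pow, Complex.norm_natCast]
    gcongr
    refine (norm_sum_le _ _).trans (Finset.sum_le_sum fun h _ => ?_)
    rw [RCLike.norm_conj]
    exact avg_ineq hT (cube_BM hT r hf h) M H hM hη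
  have h3 : ∑ h ∈ B, (H * (η / 2 + (1 / (2 * η * M ^ 2)) * I h) + 2 * (M : ℝ)) =
      (H : ℝ) ^ (r + 1) * (η / 2) + (H : ℝ) * (1 / (2 * η * M ^ 2)) * ∑ h ∈ B, I h +
        2 * M * (H : ℝ) ^ r := by
    rw [Finset.sum_add_distrib, ← Finset.mul_sum, Finset.sum_add_distrib, ← Finset.mul_sum,
      Finset.sum_const, Finset.sum_const, nsmul_eq_mul, nsmul_eq_mul, hcard]
    ring
  rw [h3] at h2
  calc ‖KA μ T (r + 1) f H‖ ≤ _ := h2
    _ ≤ (1 / (H : ℝ) ^ (r + 1)) * ((H : ℝ) ^ (r + 1) * (η / 2) +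
          (H : ℝ) * (1 / (2 * η * M ^ 2)) * ((H : ℝ) ^ r *
            ∑ j ∈ range M, ∑ j' ∈ range M, ‖KA μ T r (dd T ((j' : ℤ) - j) f) H‖) +
          2 * M * (H : ℝ) ^ r) := by gcongr
    _ = _ := by
        field_simp
        ring

theorem KA_le_one (hT : ∀ n : ℤ, MeasurePreserving ⇑(T ^ n) μ μ) (r : ℕ) {f : X → ℂ}
    (hf : BM 1 f) (H : ℕ) : ‖KA μ T r f H‖ ≤ 1 := by
  have h1 : ‖∑ h ∈ bx (0 : Fin r → ℤ) (fun _ => H), corr μ T r f h‖ ≤ (H : ℝ) ^ r := by
    rw [← vl_const, ← card_bx' (0 : Fin r → ℤ)]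
    refine (norm_sum_le _ _).trans ?_
    refine (Finset.sum_le_sum (g := fun _ => (1:ℝ)) fun h _ => ?_).trans (by simp)
    have := corr_bdd hT r hf h
    simpa using this
  rw [KA, norm_mul, norm_div, norm_one, norm_pow, Complex.norm_natCast]
  rcases eq_or_ne ((H : ℝ) ^ r) 0 with h0 | h0
  · rw [h0, div_zero, zero_mul]; exact zero_le_one
  · calc 1 / (H : ℝ) ^ r * ‖∑ h ∈ bx (0 : Fin r → ℤ) (fun _ => H), corr μ T r f h‖ ≤
        1 / (H : ℝ) ^ r * (H : ℝ) ^ r := by gcongr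
      _ = 1 := by field_simp

theorem KA_dd_neg (hT : ∀ n : ℤ, MeasurePreserving ⇑(T ^ n) μ μ) (r : ℕ) {f : X → ℂ}
    (hf : BM 1 f) (t : ℤ) (H : ℕ) :
    ‖KA μ T r (dd T (-t) f) H‖ = ‖KA μ T r (dd T t f) H‖ := by
  have h1 : KA μ T r (dd T (-t) f) H = (starRingEnd ℂ) (KA μ T r (dd T t f) H) := by
    rw [KA, KA, map_mul, map_sum]
    congr 1
    · rw [map_div₀, map_pow, map_one, Complex.conj_natCast]
    · refine Finset.sum_congr rfl fun h _ => ?_
      rw [corr_dd, corr_dd, wz_neg hT (cube_BM hT r hf h)]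
  rw [h1, RCLike.norm_conj]

/-- the upper limit of the cube averages is at most `δ` -/
def LE (μ : Measure X) (T : Equiv.Perm X) (r : ℕ) (f : X → ℂ) (δ : ℝ) : Prop :=
  ∀ ε : ℝ, δ < ε → ∀ᶠ H in atTop, ‖KA μ T r f H‖ ≤ ε

omit [IsProbabilityMeasure μ] in
theorem LE.mono {r : ℕ} {f : X → ℂ} {δ δ' : ℝ} (h : LE μ T r f δ) (hd : δ ≤ δ') :
    LE μ T r f δ' := fun ε hε => h ε (lt_of_le_of_lt hd hε)

theorem LE_succ (hT : ∀ n : ℤ, MeasurePreserving ⇑(T ^ n) μ μ) (r : ℕ) {f : X → ℂ}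
    (hf : BM 1 f) (h : ∀ ε : ℝ, 0 < ε → ∀ᶠ n : ℕ in atTop, LE μ T r (dd T (n : ℤ) f) ε) :
    LE μ T (r + 1) f 0 := by
  intro ε hε
  obtain ⟨N, hN⟩ := eventually_atTop.1 (h (ε ^ 2 / 8) (by positivity))
  obtain ⟨M0, hM0⟩ := exists_nat_gt (8 * N / ε ^ 2)
  set M := M0 + 1 with hM
  have hMpos : 0 < M := Nat.succ_pos _
  have hM' : (0 : ℝ) < M := by exact_mod_cast hMpos
  have hMN : 8 * N / ε ^ 2 ≤ M := by
    rw [hM]; push_cast; linarith
  have hMN' : 8 * N ≤ M * ε ^ 2 := by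
    rwa [div_le_iff₀ (by positivity)] at hMN
  have hev : ∀ᶠ H : ℕ in atTop, ∀ n ∈ range M, N ≤ n →
      ‖KA μ T r (dd T (n : ℤ) f) H‖ ≤ ε ^ 2 / 4 := by
    rw [Filter.eventually_all_finset]
    intro n _
    by_cases hn : N ≤ n
    · filter_upwards [hN n hn (ε ^ 2 / 4) (by have : 0 < ε ^ 2 := by positivity
                                              linarith)] with H hH _
      exact hH
    · exact Eventually.of_forall fun H hn' => absurd hn' hn
  have hev2 : ∀ᶠ H : ℕ in atTop, 2 * (M : ℝ) / H ≤ ε / 4 := by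
    have h4 : Tendsto (fun k : ℕ => 2 * (M : ℝ) / (k : ℝ)) atTop (𝓝 0) :=
      tendsto_const_div_atTop_nhds_zero_nat _
    filter_upwards [h4.eventually (gt_mem_nhds (show 0 < ε / 4 by positivity))] with H hH
    exact hH.le
  filter_upwards [hev, hev2, eventually_gt_atTop 0] with H h1 h2 h3
  have h4 := KA_ineq hT r hf M H hMpos h3 (η := ε / 2) (by positivity)
  have hdd : ∀ t : ℤ, BM 1 (dd T t f) := fun t => by
    have := hf.dd hT t
    rwa [one_mul] at this
  have h5 : ∀ j ∈ range M, ∀ j' ∈ range M, ‖KA μ T r (dd T ((j' : ℤ) - j) f) H‖ ≤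
      (if j < j' + N ∧ j' < j + N then 1 else 0) + ε ^ 2 / 4 := by
    intro j hj j' hj'
    rw [Finset.mem_range] at hj hj'
    split_ifs with hc
    · refine (KA_le_one hT r (hdd _) H).trans ?_
      have : 0 < ε ^ 2 := by positivity
      linarith
    · rw [zero_add]
      rcases le_total j j' with h6 | h6
      · obtain ⟨n, rfl⟩ := Nat.exists_eq_add_of_le h6
        have e : ((j + n : ℕ) : ℤ) - j = (n : ℤ) := by push_cast; ring
        rw [e]
        exact h1 n (Finset.mem_range.2 (by omega)) (by omega)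
      · obtain ⟨n, rfl⟩ := Nat.exists_eq_add_of_le h6
        have e : (j' : ℤ) - ((j' + n : ℕ) : ℤ) = -(n : ℤ) := by push_cast; ring
        rw [e, KA_dd_neg hT r hf]
        exact h1 n (Finset.mem_range.2 (by omega)) (by omega)
  have h6 : ∑ j ∈ range M, ∑ j' ∈ range M, ‖KA μ T r (dd T ((j' : ℤ) - j) f) H‖ ≤
      M * (2 * N + M * (ε ^ 2 / 4)) := by
    calc _ ≤ ∑ j ∈ range M, ∑ j' ∈ range M,
          (((if j < j' + N ∧ j' < j + N then 1 else 0) : ℝ) + ε ^ 2 / 4) :=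
          Finset.sum_le_sum fun j hj => Finset.sum_le_sum fun j' hj' => h5 j hj j' hj'
      _ ≤ ∑ j ∈ range M, (2 * (N : ℝ) + M * (ε ^ 2 / 4)) := by
          refine Finset.sum_le_sum fun j _ => ?_
          rw [Finset.sum_add_distrib, Finset.sum_const, card_range, nsmul_eq_mul]
          gcongr
          rw [← Finset.sum_filter, Finset.sum_const, nsmul_eq_mul, mul_one]
          have h7 : ((range M).filter fun j' => j < j' + N ∧ j' < j + N).card ≤ 2 * N := by
            calc _ ≤ (Finset.Ico (j + 1 - N) (j + N)).card := by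
                  refine Finset.card_le_card fun x hx => ?_
                  rw [Finset.mem_filter, Finset.mem_range] at hx
                  rw [Finset.mem_Ico]
                  omega
              _ ≤ 2 * N := by
                  rw [Nat.card_Ico]
                  omega
          exact_mod_cast h7
      _ = _ := by rw [Finset.sum_const, card_range, nsmul_eq_mul]
  have h7 : (1 / (2 * (ε / 2) * (M : ℝ) ^ 2)) *
      ∑ j ∈ range M, ∑ j' ∈ range M, ‖KA μ T r (dd T ((j' : ℤ) - j) f) H‖ ≤ ε / 2 := by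
    calc _ ≤ (1 / (2 * (ε / 2) * (M : ℝ) ^ 2)) * (M * (2 * N + M * (ε ^ 2 / 4))) := by gcongr
      _ ≤ (1 / (2 * (ε / 2) * (M : ℝ) ^ 2)) * (M * (M * (ε ^ 2 / 4) + M * (ε ^ 2 / 4))) := by
          refine mul_le_mul_of_nonneg_left (mul_le_mul_of_nonneg_left ?_ (by positivity))
            (by positivity)
          linarith
      _ = ε / 2 := by
          field_simp
          ring
  calc ‖KA μ T (r + 1) f H‖ ≤ _ := h4
    _ ≤ ε / 2 / 2 + ε / 4 + ε / 2 := by gcongr
    _ = ε := by ring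

theorem LE_one {f : X → ℂ}
    (hf : BM 1 f) {δ : ℝ} (h : ∀ᶠ k : ℕ in atTop,
      ‖∫ x, f x * (starRingEnd ℂ) (f ((⇑T)^[k] x)) ∂μ‖ ≤ δ) : LE μ T 1 f δ := by
  intro ε hε
  obtain ⟨N, hN⟩ := eventually_atTop.1 h
  have h1 : ∀ H : ℕ, KA μ T 1 f H = (1 / (H : ℂ)) * ∑ t ∈ range H,
      ∫ x, f x * (starRingEnd ℂ) (f ((⇑T)^[t] x)) ∂μ := by
    intro H
    have e1 : (0 : Fin 1 → ℤ) = Fin.cons 0 0 := by
      ext j
      have : j = 0 := Subsingleton.elim _ _
      rw [this]; simp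
    have e2 : (fun _ : Fin 1 => H) = Fin.cons H (fun _ : Fin 0 => H) := by
      ext j
      have : j = 0 := Subsingleton.elim _ _
      rw [this]; simp
    rw [KA, e1, e2, sum_bx_cons, pow_one]
    congr 1
    refine Finset.sum_congr rfl fun t _ => ?_
    rw [bx_zero, Finset.sum_singleton, corr_one, zero_add]
    simp only [zpow_nat]
  have hδ : 0 ≤ δ := (norm_nonneg _).trans (hN N le_rfl)
  have hc1 : ∀ t : ℕ, ‖∫ x, f x * (starRingEnd ℂ) (f ((⇑T)^[t] x)) ∂μ‖ ≤ 1 := by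
    intro t
    have h3 : ∀ x, ‖f x * (starRingEnd ℂ) (f ((⇑T)^[t] x))‖ ≤ 1 := by
      intro x
      rw [norm_mul, RCLike.norm_conj]
      exact mul_le_one₀ (hf.bd _) (norm_nonneg _) (hf.bd _)
    have h4 := norm_integral_le_of_norm_le_const (μ := μ) (ae_of_all _ h3)
    simpa using h4
  have hev2 : ∀ᶠ H : ℕ in atTop, (N : ℝ) / H ≤ ε - δ := by
    have h4 : Tendsto (fun k : ℕ => (N : ℝ) / (k : ℝ)) atTop (𝓝 0) :=
      tendsto_const_div_atTop_nhds_zero_nat _
    filter_upwards [h4.eventually (gt_mem_nhds (sub_pos.2 hε))] with H hH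
    exact hH.le
  filter_upwards [hev2, eventually_gt_atTop 0] with H h2 h3
  have hH' : (0 : ℝ) < H := by exact_mod_cast h3
  rw [h1, norm_mul, norm_div, norm_one, Complex.norm_natCast]
  have h5 : ‖∑ t ∈ range H, ∫ x, f x * (starRingEnd ℂ) (f ((⇑T)^[t] x)) ∂μ‖ ≤ N + H * δ := by
    calc _ ≤ ∑ t ∈ range H, ((if t < N then 1 else 0) + δ) := by
          refine (norm_sum_le _ _).trans (Finset.sum_le_sum fun t _ => ?_)
          split_ifs with ht
          · exact (hc1 t).trans (by linarith)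
          · rw [zero_add]; exact hN t (by omega)
      _ ≤ N + H * δ := by
          rw [Finset.sum_add_distrib, Finset.sum_const, card_range, nsmul_eq_mul]
          gcongr
          rw [← Finset.sum_filter, Finset.sum_const, nsmul_eq_mul, mul_one]
          have : ((range H).filter fun t => t < N).card ≤ N := by
            calc _ ≤ (range N).card := by
                  refine Finset.card_le_card fun x hx => ?_
                  rw [Finset.mem_filter] at hx
                  exact Finset.mem_range.2 hx.2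
              _ = N := card_range N
          exact_mod_cast this
  calc 1 / (H : ℝ) * ‖∑ t ∈ range H, ∫ x, f x * (starRingEnd ℂ) (f ((⇑T)^[t] x)) ∂μ‖ ≤
      1 / (H : ℝ) * (N + H * δ) := by gcongr
    _ = N / H + δ := by field_simp
    _ ≤ ε := by linarith

theorem LE_zero_tendsto {r : ℕ} {f : X → ℂ} (h : LE μ T r f 0) :
    Tendsto (KA μ T r f) atTop (𝓝 0) := by
  rw [Metric.tendsto_atTop]
  intro ε hε
  obtain ⟨N, hN⟩ := eventually_atTop.1 (h (ε / 2) (by positivity))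
  refine ⟨N, fun H hH => ?_⟩
  rw [dist_zero_right]
  exact lt_of_le_of_lt (hN H hH) (by linarith)

end

end Pool.Agent.W742.CU
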