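import Pool.Agent.W742.CU.UM
import Pool.Agent.H767R2.FourierT

/-!
# Polynomial maps and the dichotomy for uniform means of polynomial phases
-/

set_option autoImplicit false

open Finset Filter Topology

namespace Pool.Agent.W742.CU

open Pool.Agent.H767R2 (ev ev_add ev_zero norm_ev ev_coe ee)

section Poly

variable {A G : Type*} [AddCommGroup A] [AddCommGroup G]

/-- difference -/
def Dv (v : A) (θ : A → G) : A → G := fun h => θ (h + v) - θ h

/-- polynomial maps between abelian groups -/
def IsPoly : ℕ → (A → G) → Prop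
  | 0, θ => ∀ h, θ h = θ 0
  | n + 1, θ => ∀ v, IsPoly n (Dv v θ)

theorem IsPoly.const (n : ℕ) (c : G) : IsPoly n (fun _ : A => c) := by
  induction n generalizing c with
  | zero => intro h; rfl
  | succ n ih =>
    intro v
    have : Dv v (fun _ : A => c) = fun _ => 0 := by
      ext h; simp [Dv]
    rw [this]
    exact ih 0

theorem IsPoly.succ {n : ℕ} {θ : A → G} (h : IsPoly n θ) : IsPoly (n + 1) θ := by
  induction n generalizing θ with
  | zero =>
    intro v
    have : Dv v θ = fun _ => 0 := by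
      ext x
      simp only [Dv]
      rw [h (x + v), h x, sub_self]
    rw [this]
    exact IsPoly.const 0 0
  | succ n ih =>
    intro v
    exact ih (h v)

theorem IsPoly.mono {n m : ℕ} (hnm : n ≤ m) {θ : A → G} (h : IsPoly n θ) : IsPoly m θ := by
  induction hnm with
  | refl => exact h
  | step _ ih => exact ih.succ

theorem IsPoly.add {n : ℕ} {θ θ' : A → G} (h : IsPoly n θ) (h' : IsPoly n θ') :
    IsPoly n (fun x => θ x + θ' x) := by
  induction n generalizing θ θ' with
  | zero => intro x; show θ x + θ' x = θ 0 + θ' 0; rw [h x, h' x]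
  | succ n ih =>
    intro v
    have : Dv v (fun x => θ x + θ' x) = fun x => Dv v θ x + Dv v θ' x := by
      ext x; simp only [Dv]; abel
    rw [this]
    exact ih (h v) (h' v)

theorem IsPoly.map {G' : Type*} [AddCommGroup G'] {n : ℕ} {θ : A → G} (h : IsPoly n θ)
    (φ : G →+ G') : IsPoly n (fun x => φ (θ x)) := by
  induction n generalizing θ with
  | zero => intro x; show φ (θ x) = φ (θ 0); rw [h x]
  | succ n ih =>
    intro v
    have : Dv v (fun x => φ (θ x)) = fun x => φ (Dv v θ x) := by
      ext x; simp only [Dv, map_sub]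
    rw [this]
    exact ih (h v)

theorem IsPoly.neg {n : ℕ} {θ : A → G} (h : IsPoly n θ) : IsPoly n (fun x => - θ x) :=
  h.map (AddMonoidHom.mk' (fun g => -g) (fun a b => by abel))

theorem IsPoly.sum {ι : Type*} {n : ℕ} (F : Finset ι) {θ : ι → A → G}
    (h : ∀ i ∈ F, IsPoly n (θ i)) : IsPoly n (fun x => ∑ i ∈ F, θ i x) := by
  classical
  induction F using Finset.induction_on with
  | empty => simpa using IsPoly.const n (0 : G)
  | insert i F hi ih =>
    simp only [Finset.sum_insert hi]
    exact (h i (Finset.mem_insert_self _ _)).add (ih fun j hj => h j (Finset.mem_insert_of_mem hj))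

theorem telescope (θ : A → G) (h v : A) (Q : ℕ) :
    θ (h + Q • v) - θ h = ∑ i ∈ range Q, Dv v θ (h + i • v) := by
  have h1 := Finset.sum_range_sub (fun i : ℕ => θ (h + i • v)) Q
  simp only [zero_smul, add_zero] at h1
  rw [← h1]
  refine Finset.sum_congr rfl fun i _ => ?_
  simp only [Dv]
  rw [add_assoc, succ_nsmul]

/-- `θ` is periodic mod `Q` -/
def Per (Q : ℕ) (θ : A → G) : Prop := ∀ h w : A, θ (h + Q • w) = θ h

theorem Per.dv {Q : ℕ} {θ : A → G} (h : Per Q θ) (v : A) : Per Q (Dv v θ) := by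
  intro x w
  simp only [Dv]
  rw [h x w, show x + Q • w + v = (x + v) + Q • w by abel, h]

theorem Per.mul_left {Q : ℕ} {θ : A → G} (h : Per Q θ) (M : ℕ) : Per (M * Q) θ := by
  intro x w
  rw [mul_comm, mul_smul]
  exact h x _

theorem Per.of_dvd {Q Q' : ℕ} {θ : A → G} (h : Per Q θ) (hd : Q ∣ Q') : Per Q' θ := by
  obtain ⟨M, rfl⟩ := hd
  rw [mul_comm]
  exact h.mul_left M

end Poly

variable {r : ℕ}

/-- residues -/
def resd (Q : ℕ) (h : Fin r → ℤ) : Fin r → ℤ := fun j => h j % (Q : ℤ)

theorem resd_spec (Q : ℕ) (h : Fin r → ℤ) :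
    h = resd Q h + Q • (fun j => h j / (Q : ℤ)) := by
  ext j
  have := Int.emod_add_mul_ediv (h j) Q
  show h j = h j % (Q : ℤ) + Q • (h j / (Q : ℤ))
  rw [nsmul_eq_mul]
  exact this.symm

theorem resd_mem {Q : ℕ} (hQ : 1 ≤ Q) (h : Fin r → ℤ) : resd Q h ∈ bx 0 (fun _ => Q) := by
  rw [mem_bx]
  intro j
  have hQ' : (0 : ℤ) < Q := by exact_mod_cast hQ
  simp only [resd, Pi.zero_apply, zero_add]
  exact ⟨Int.emod_nonneg _ hQ'.ne', Int.emod_lt_of_pos _ hQ'⟩

theorem Per.resd_eq {α : Type*} [AddCommGroup α] {Q : ℕ} {θ : (Fin r → ℤ) → α} (h : Per Q θ)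
    (x : Fin r → ℤ) : θ (resd Q x) = θ x := by
  conv_rhs => rw [resd_spec Q x]
  rw [h]

/-- periodic polynomial maps have torsion differences -/
theorem torsion {G : Type*} [AddCommGroup G] {Q : ℕ} (hQ : 1 ≤ Q) (n : ℕ) :
    ∀ θ : (Fin r → ℤ) → G, IsPoly n θ → Per Q θ →
      ∃ M : ℕ, 1 ≤ M ∧ ∀ h h', M • (θ h - θ h') = 0 := by
  induction n with
  | zero =>
    intro θ h1 _
    refine ⟨1, le_rfl, fun h h' => ?_⟩
    rw [h1 h, h1 h', sub_self, smul_zero]
  | succ n ih =>
    intro θ h1 h2
    choose M hM1 hM2 using fun v => ih (Dv v θ) (h1 v) (h2.dv v)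
    have key : ∀ v h, (Q * M v) • Dv v θ h = 0 := by
      intro v h
      have e1 : ∑ i ∈ range Q, Dv v θ (h + i • v) = 0 := by
        rw [← telescope, h2, sub_self]
      have e2 : M v • ∑ i ∈ range Q, Dv v θ (h + i • v) = Q • (M v • Dv v θ h) := by
        rw [Finset.smul_sum]
        have : ∀ i ∈ range Q, M v • Dv v θ (h + i • v) = M v • Dv v θ h := by
          intro i _
          rw [← sub_eq_zero, ← smul_sub]
          exact hM2 v _ _
        rw [Finset.sum_congr rfl this, Finset.sum_const, card_range]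
      rw [e1, smul_zero] at e2
      rw [mul_smul]
      exact e2.symm
    refine ⟨∏ v ∈ bx 0 (fun _ => Q), (Q * M v), ?_, fun h h' => ?_⟩
    · exact Finset.one_le_prod' fun v _ => Nat.one_le_iff_ne_zero.2
        (Nat.mul_ne_zero (by omega) (by have := hM1 v; omega))
    · set v := h - h' with hv
      have e1 : θ h - θ h' = Dv (resd Q v) θ h' := by
        simp only [Dv]
        congr 1
        have e2 : h = (h' + resd Q v) + Q • (fun j => v j / (Q : ℤ)) := by
          rw [add_assoc, ← resd_spec, hv]; abel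
        conv_lhs => rw [e2]
        rw [h2]
      rw [e1, ← Finset.prod_erase_mul _ _ (resd_mem hQ v), mul_smul, key, smul_zero]

/-- averaging over a finite set of shifts -/
theorem um_of_avg {b : (Fin r → ℤ) → ℂ} (hb : ∀ h, ‖b h‖ ≤ 1) (F : Finset (Fin r → ℤ))
    (hF : F.Nonempty) {C : ℂ} (h : UM (fun x => ∑ k ∈ F, b (x + k)) C) :
    UM b (C / F.card) := by
  intro ε hε
  have hFc : (0 : ℝ) < F.card := by exact_mod_cast Finset.card_pos.2 hF
  have hFc' : (F.card : ℂ) ≠ 0 := by
    have := hFc.ne'
    exact_mod_cast this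
  obtain ⟨L, hL⟩ := h (F.card * (ε / 2)) (by positivity)
  choose L' hL' using fun k : Fin r → ℤ => shift_small k (ε / 2) (by positivity)
  refine ⟨max L (F.sup L'), fun a s hs => ?_⟩
  have h1 := hL a s fun j => (le_max_left _ _).trans (hs j)
  have h2 : ∀ k ∈ F, ‖∑ x ∈ bx a s, b (x + k) - ∑ x ∈ bx a s, b x‖ ≤ ε / 2 * vl s := fun k hk =>
    hL' k b hb a s fun j => ((Finset.le_sup hk).trans (le_max_right _ _)).trans (hs j)
  have e : (F.card : ℂ) * (∑ x ∈ bx a s, b x - (vl s : ℂ) * (C / F.card)) =
      (∑ x ∈ bx a s, ∑ k ∈ F, b (x + k) - (vl s : ℂ) * C) -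
      ∑ k ∈ F, (∑ x ∈ bx a s, b (x + k) - ∑ x ∈ bx a s, b x) := by
    rw [Finset.sum_sub_distrib, Finset.sum_comm, Finset.sum_const, nsmul_eq_mul]
    field_simp
    ring
  have h3 : (F.card : ℝ) * ‖∑ x ∈ bx a s, b x - (vl s : ℂ) * (C / F.card)‖ ≤
      F.card * (ε * vl s) := by
    calc (F.card : ℝ) * ‖∑ x ∈ bx a s, b x - (vl s : ℂ) * (C / F.card)‖ =
        ‖(F.card : ℂ) * (∑ x ∈ bx a s, b x - (vl s : ℂ) * (C / F.card))‖ := by
          rw [norm_mul, Complex.norm_natCast]
      _ ≤ F.card * (ε / 2) * vl s + ∑ k ∈ F, ε / 2 * vl s := by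
          rw [e]
          refine (norm_sub_le _ _).trans (add_le_add h1 ?_)
          exact (norm_sum_le _ _).trans (Finset.sum_le_sum h2)
      _ = F.card * (ε * vl s) := by
          rw [Finset.sum_const, nsmul_eq_mul]; ring
  exact le_of_mul_le_mul_left h3 hFc

/-- periodic functions have uniform means -/
theorem um_of_per {b : (Fin r → ℤ) → ℂ} (hb : ∀ h, ‖b h‖ ≤ 1) {Q : ℕ} (hQ : 1 ≤ Q)
    (h : Per Q b) : ∃ c, UM b c := by
  have hQ' : (0 : ℤ) < Q := by exact_mod_cast hQ
  have hsum : ∀ x, ∑ k ∈ bx 0 (fun _ => Q), b (x + k) = ∑ k ∈ bx 0 (fun _ => Q), b k := by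
    intro x
    refine Finset.sum_bij (fun k _ => resd Q (x + k)) ?_ ?_ ?_ ?_
    · intro k _
      exact resd_mem hQ _
    · intro k hk k' hk' e
      rw [mem_bx] at hk hk'
      ext j
      have e1 := congrFun e j
      simp only [resd, Pi.add_apply] at e1
      have h1 := hk j
      have h2 := hk' j
      simp only [Pi.zero_apply, zero_add] at h1 h2
      have e2 : (x j + k j) ≡ (x j + k' j) [ZMOD Q] := e1
      have e3 : k j ≡ k' j [ZMOD Q] := Int.ModEq.add_left_cancel' _ e2
      have e4 : k j % Q = k' j % Q := e3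
      rwa [Int.emod_eq_of_lt h1.1 h1.2, Int.emod_eq_of_lt h2.1 h2.2] at e4
    · intro y hy
      refine ⟨resd Q (y - x), resd_mem hQ _, ?_⟩
      rw [mem_bx] at hy
      ext j
      have h1 := hy j
      simp only [Pi.zero_apply, zero_add] at h1
      simp only [resd, Pi.add_apply, Pi.sub_apply]
      rw [Int.add_emod, Int.emod_emod, ← Int.add_emod, add_sub_cancel, Int.emod_eq_of_lt h1.1 h1.2]
    · intro k _
      exact (h.resd_eq _).symm
  refine ⟨_, um_of_avg hb (bx 0 (fun _ => Q)) ⟨resd Q 0, resd_mem hQ _⟩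
    ((UM.const (∑ k ∈ bx 0 (fun _ => Q), b k)).congr hsum)⟩

theorem ev_sub (s t : UnitAddCircle) : ev (s - t) = ev s * (starRingEnd ℂ) (ev t) := by
  have h1 : ev (s - t) * ev t = ev s := by rw [← ev_add, sub_add_cancel]
  have h2 : ev t * (starRingEnd ℂ) (ev t) = 1 := by
    rw [Complex.mul_conj, Complex.normSq_eq_norm_sq, norm_ev]; simp
  calc ev (s - t) = ev (s - t) * (ev t * (starRingEnd ℂ) (ev t)) := by rw [h2, mul_one]
    _ = _ := by rw [← mul_assoc, h1]

theorem ev_eq_one_iff (t : UnitAddCircle) : ev t = 1 ↔ t = 0 := by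
  constructor
  · intro h
    have h1 : AddCircle.toCircle t = AddCircle.toCircle (0 : UnitAddCircle) := by
      rw [AddCircle.toCircle_zero]
      exact Subtype.ext h
    exact AddCircle.injective_toCircle one_ne_zero h1
  · rintro rfl
    exact ev_zero

theorem ev_nsmul (n : ℕ) (t : UnitAddCircle) : ev (n • t) = ev t ^ n := by
  induction n with
  | zero => rw [zero_smul, ev_zero, pow_zero]
  | succ n ih => rw [succ_nsmul, ev_add, ih, pow_succ]

theorem geom_bound (z : ℂ) (hz : ‖z‖ = 1) (h1 : z ≠ 1) (K : ℕ) :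
    ‖∑ k ∈ range K, z ^ k‖ ≤ 2 / ‖z - 1‖ := by
  have hpos : 0 < ‖z - 1‖ := norm_pos_iff.2 (sub_ne_zero.2 h1)
  rw [geom_sum_eq h1, norm_div, div_le_div_iff_of_pos_right hpos]
  refine (norm_sub_le _ _).trans ?_
  rw [norm_pow, hz, one_pow, norm_one]
  norm_num

/-- **Dichotomy**: a polynomial phase is periodic or has uniform mean zero. -/
theorem dich (n : ℕ) : ∀ θ : (Fin r → ℤ) → UnitAddCircle, IsPoly n θ →
    (∃ Q : ℕ, 1 ≤ Q ∧ Per Q θ) ∨ UM (fun h => ev (θ h)) 0 := by
  classical
  induction n with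
  | zero =>
    intro θ h
    left
    exact ⟨1, le_rfl, fun x w => by rw [h (x + 1 • w), h x]⟩
  | succ n ih =>
    intro θ hθ
    by_cases hum : UM (fun h => ev (θ h)) 0
    · exact Or.inr hum
    left
    -- periods of the differences in the coordinate directions
    have h1 : ∀ j : Fin r, ∃ k q : ℕ, 1 ≤ k ∧ 1 ≤ q ∧
        Per q (Dv (k • (Pi.single j 1 : Fin r → ℤ)) θ) := by
      intro j
      by_contra hcon
      push Not at hcon
      apply hum
      refine vdc (fun h => (norm_ev _).le) (Pi.single j 1 : Fin r → ℤ) fun k hk => ?_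
      have h2 : ∀ x : Fin r → ℤ, ev (θ (x + (k : ℤ) • (Pi.single j 1 : Fin r → ℤ))) *
          (starRingEnd ℂ) (ev (θ x)) = ev (Dv (k • (Pi.single j 1 : Fin r → ℤ)) θ x) := by
        intro x
        rw [Dv, ev_sub, natCast_zsmul]
      refine UM.congr ?_ h2
      rcases ih _ (hθ (k • (Pi.single j 1 : Fin r → ℤ))) with ⟨q, hq, hper⟩ | h3
      · exact absurd hper (hcon k q hk hq)
      · exact h3
    choose k q hk hq hper using h1
    set Q : ℕ := ∏ j, (k j * q j) with hQdef
    have hQ : 1 ≤ Q := Finset.one_le_prod' fun j _ => Nat.one_le_iff_ne_zero.2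
        (Nat.mul_ne_zero (by have := hk j; omega) (by have := hq j; omega))
    have hkQ : ∀ j, k j ∣ Q := fun j =>
      (dvd_mul_right _ _).trans (Finset.dvd_prod_of_mem _ (Finset.mem_univ j))
    have hqQ : ∀ j, q j ∣ Q := fun j =>
      (dvd_mul_left _ _).trans (Finset.dvd_prod_of_mem _ (Finset.mem_univ j))
    set ψ : Fin r → (Fin r → ℤ) → UnitAddCircle := fun j =>
      Dv (Q • (Pi.single j 1 : Fin r → ℤ)) θ with hψ
    have hψper : ∀ j, Per Q (ψ j) := by
      intro j x w
      obtain ⟨M, hM⟩ := hkQ j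
      have e : ∀ y, ψ j y = ∑ i ∈ range M, Dv (k j • (Pi.single j 1 : Fin r → ℤ)) θ
          (y + i • (k j • (Pi.single j 1 : Fin r → ℤ))) := by
        intro y
        rw [← telescope, ← mul_smul, mul_comm M, ← hM]
        rfl
      rw [e, e]
      refine Finset.sum_congr rfl fun i _ => ?_
      have h4 := (hper j).of_dvd (hqQ j)
      rw [show x + Q • w + i • (k j • (Pi.single j 1 : Fin r → ℤ)) =
        (x + i • (k j • (Pi.single j 1 : Fin r → ℤ))) + Q • w by abel, h4]
    by_cases hz : ∃ h0, ∀ j, ψ j h0 = 0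
    · obtain ⟨h0, hz⟩ := hz
      choose M hM1 hM2 using fun j => torsion hQ n (ψ j) (hθ _) (hψper j)
      have hM3 : ∀ j x, M j • ψ j x = 0 := by
        intro j x
        have := hM2 j x h0
        rwa [hz j, sub_zero] at this
      set MM : ℕ := ∏ j, M j with hMM
      have hMM1 : 1 ≤ MM := Finset.one_le_prod' fun j _ => hM1 j
      refine ⟨Q * MM, Nat.one_le_iff_ne_zero.2 (Nat.mul_ne_zero (by omega) (by omega)), ?_⟩
      -- the group of periods
      let P : AddSubgroup (Fin r → ℤ) :=
        { carrier := {w | ∀ x, θ (x + w) = θ x}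
          zero_mem' := fun x => by rw [add_zero]
          add_mem' := fun {w w'} hw hw' x => by rw [← add_assoc, hw' (x + w), hw x]
          neg_mem' := fun {w} hw x => by
            have := hw (x + -w)
            rw [neg_add_cancel_right] at this
            exact this.symm }
      have hP : ∀ j, (Q * MM) • (Pi.single j 1 : Fin r → ℤ) ∈ P := by
        intro j x
        obtain ⟨M', hM'⟩ : M j ∣ MM := Finset.dvd_prod_of_mem _ (Finset.mem_univ j)
        have e1 : θ (x + MM • (Q • (Pi.single j 1 : Fin r → ℤ))) - θ x = 0 := by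
          rw [telescope]
          have e2 : ∀ i ∈ range MM, Dv (Q • (Pi.single j 1 : Fin r → ℤ)) θ
              (x + i • (Q • (Pi.single j 1 : Fin r → ℤ))) = ψ j x := by
            intro i _
            rw [show i • (Q • (Pi.single j 1 : Fin r → ℤ)) =
              Q • (i • (Pi.single j 1 : Fin r → ℤ)) by rw [smul_comm]]
            exact hψper j x _
          rw [Finset.sum_congr rfl e2, Finset.sum_const, card_range, hM', mul_comm, mul_smul,
            hM3, smul_zero]
        rw [mul_comm, mul_smul]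
        exact sub_eq_zero.1 e1
      intro x w
      have e3 : (Q * MM) • w = ∑ j, w j • ((Q * MM) • (Pi.single j 1 : Fin r → ℤ)) := by
        ext i
        simp [Finset.sum_apply, Pi.single_apply]
        ring
      rw [e3]
      exact (AddSubgroup.sum_mem P fun j _ => AddSubgroup.zsmul_mem P (hP j) (w j)) x
    · exfalso
      push Not at hz
      apply hum
      set p : Fin r → (Fin r → ℤ) → ℂ := fun j h => if ψ j h = 0 then 0 else 1 with hp
      set c : Fin r → (Fin r → ℤ) → ℂ := fun j h => p j h * ∏ i with i < j, (1 - p i h) with hc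
      have hpper : ∀ j x w, p j (x + Q • w) = p j x := by
        intro j x w
        simp only [hp, hψper j x w]
      have hcper : ∀ j x w, c j (x + Q • w) = c j x := by
        intro j x w
        simp only [hc, hpper]
      have hp1 : ∀ j h, ‖p j h‖ ≤ 1 := by
        intro j h
        simp only [hp]
        split_ifs <;> simp
      have hp2 : ∀ j h, ‖1 - p j h‖ ≤ 1 := by
        intro j h
        simp only [hp]
        split_ifs <;> simp
      have hc1 : ∀ j h, ‖c j h‖ ≤ 1 := by
        intro j h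
        simp only [hc]
        rw [norm_mul, norm_prod]
        exact mul_le_one₀ (hp1 j h) (Finset.prod_nonneg fun _ _ => norm_nonneg _)
          (Finset.prod_le_one (fun _ _ => norm_nonneg _) fun i _ => hp2 i h)
      have hone : ∀ h, ∑ j, c j h = 1 := by
        intro h
        have e1 := Finset.prod_one_sub_ordered (Finset.univ : Finset (Fin r)) (fun j => p j h)
        obtain ⟨j, hj⟩ := hz h
        have e2 : ∏ j, (1 - p j h) = 0 := by
          refine Finset.prod_eq_zero (Finset.mem_univ j) ?_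
          simp [hp, hj]
        rw [e2] at e1
        have e3 : ∑ i, p i h * ∏ j with j < i, (1 - p j h) = 1 := (sub_eq_zero.1 e1.symm).symm
        exact e3
      have hdec : ∀ h, ev (θ h) = ∑ j, ev (θ h) * c j h := by
        intro h
        rw [← Finset.mul_sum, hone, mul_one]
      have hmain : ∀ j ∈ (Finset.univ : Finset (Fin r)), UM (fun h => ev (θ h) * c j h) 0 := by
        intro j _
        -- uniform bound of the partial sums
        set Bd : (Fin r → ℤ) → ℝ := fun h => 2 / ‖ev (ψ j h) - 1‖ with hBd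
        obtain ⟨C, hC⟩ : ∃ C : ℝ, ∀ h ∈ bx (0 : Fin r → ℤ) (fun _ => Q), Bd h ≤ C := by
          refine ⟨∑ h ∈ bx (0 : Fin r → ℤ) (fun _ => Q), Bd h, fun h hh => ?_⟩
          exact Finset.single_le_sum (fun i _ => by simp only [hBd]; positivity) hh
        have hC' : ∀ h, Bd h ≤ C := by
          intro h
          have e1 := hC _ (resd_mem hQ h)
          simp only [hBd] at e1 ⊢
          rwa [(hψper j).resd_eq] at e1
        have hC0 : 0 ≤ C := le_trans (by simp only [hBd]; positivity) (hC' 0)
        have hstep : ∀ (h : Fin r → ℤ) (m : ℕ),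
            ev (θ (h + (m : ℤ) • (Q • (Pi.single j 1 : Fin r → ℤ)))) =
              ev (θ h) * ev (ψ j h) ^ m := by
          intro h m
          have e1 : θ (h + m • (Q • (Pi.single j 1 : Fin r → ℤ))) - θ h = m • ψ j h := by
            rw [telescope]
            have e2 : ∀ i ∈ range m, Dv (Q • (Pi.single j 1 : Fin r → ℤ)) θ
                (h + i • (Q • (Pi.single j 1 : Fin r → ℤ))) = ψ j h := by
              intro i _
              rw [show i • (Q • (Pi.single j 1 : Fin r → ℤ)) =
                Q • (i • (Pi.single j 1 : Fin r → ℤ)) by rw [smul_comm]]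
              exact hψper j h _
            rw [Finset.sum_congr rfl e2, Finset.sum_const, card_range]
          rw [natCast_zsmul, ← ev_nsmul, ← ev_add, ← e1, add_sub_cancel]
        refine um_zero_of_avg (v := Q • (Pi.single j 1 : Fin r → ℤ)) (fun h => ?_) fun ε hε => ?_
        · rw [norm_mul, norm_ev, one_mul]
          exact hc1 j h
        · obtain ⟨K, hK⟩ := exists_nat_gt (C / ε)
          refine ⟨K + 1, 0, Nat.succ_pos _, fun a s _ => ?_⟩
          have hb1 : ∀ x, ‖∑ m ∈ range (K + 1),
              ev (θ (x + (m : ℤ) • (Q • (Pi.single j 1 : Fin r → ℤ)))) *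
              c j (x + (m : ℤ) • (Q • (Pi.single j 1 : Fin r → ℤ)))‖ ≤ C := by
            intro x
            have e1 : ∀ m : ℕ, c j (x + (m : ℤ) • (Q • (Pi.single j 1 : Fin r → ℤ))) = c j x := by
              intro m
              rw [natCast_zsmul, show m • (Q • (Pi.single j 1 : Fin r → ℤ)) =
                Q • (m • (Pi.single j 1 : Fin r → ℤ)) by rw [smul_comm]]
              exact hcper j x _
            by_cases hψ0 : ψ j x = 0
            · have e2 : c j x = 0 := by
                simp only [hc, hp, hψ0, if_true, zero_mul]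
              simp only [e1, e2, mul_zero, Finset.sum_const_zero, norm_zero]
              exact hC0
            · simp only [e1, hstep]
              rw [← Finset.sum_mul, ← Finset.mul_sum, norm_mul, norm_mul, norm_ev, one_mul]
              have h5 : ev (ψ j x) ≠ 1 := fun h => hψ0 ((ev_eq_one_iff _).1 h)
              have h6 := geom_bound _ (norm_ev (ψ j x)) h5 (K + 1)
              calc _ ≤ (2 / ‖ev (ψ j x) - 1‖) * 1 := by
                    exact mul_le_mul h6 (hc1 j x) (norm_nonneg _) (by positivity)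
                _ ≤ C := by rw [mul_one]; exact hC' x
          refine (norm_sum_le _ _).trans ?_
          refine (Finset.sum_le_sum fun x _ => hb1 x).trans ?_
          rw [Finset.sum_const, nsmul_eq_mul, card_bx', mul_comm]
          refine mul_le_mul_of_nonneg_right ?_ (vl_nonneg s)
          have h7 : C < K * ε := (div_lt_iff₀ hε).1 hK
          push_cast
          nlinarith
      have := UM.sum (Finset.univ : Finset (Fin r)) hmain
      rw [Finset.sum_const_zero] at this
      exact this.congr hdec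

/-- zero sets of nonzero polynomial maps are negligible -/
theorem um_zero_set (n : ℕ) (v : (Fin r → ℤ) → ℤ) (hv : IsPoly n v) (hne : ∃ h, v h ≠ 0)
    (b : (Fin r → ℤ) → ℂ) (hb : ∀ h, ‖b h‖ ≤ 1) : UM (fun h => if v h = 0 then b h else 0) 0 := by
  classical
  by_cases hconst : ∀ h, v h = v 0
  · obtain ⟨h0, hh0⟩ := hne
    refine UM.zero.congr fun h => ?_
    rw [if_neg]
    rw [hconst h, ← hconst h0]
    exact hh0
  push Not at hconst
  set α : UnitAddCircle := ((Real.sqrt 2 : ℝ) : UnitAddCircle) with hα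
  have hα0 : ∀ m : ℤ, m • α = 0 → m = 0 := by
    intro m hm
    by_contra hm0
    rw [hα, ← AddCircle.coe_zsmul, AddCircle.coe_eq_zero_iff] at hm
    obtain ⟨n, hn⟩ := hm
    have h1 : Irrational (m • Real.sqrt 2) := by
      rw [zsmul_eq_mul]
      exact irrational_sqrt_two.intCast_mul hm0
    rw [← hn] at h1
    simp at h1
  have hmean : ∀ m : ℤ, m ≠ 0 → UM (fun h => ev ((m * v h) • α)) 0 := by
    intro m hm
    have hp : IsPoly n (fun h => (m * v h) • α) :=
      hv.map (AddMonoidHom.mk' (fun z : ℤ => (m * z) • α) (fun a b => by rw [mul_add, add_smul]))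
    rcases dich n _ hp with ⟨Q, hQ, hper⟩ | h
    · exfalso
      have hvper : Per Q v := by
        intro x w
        have h1 : (m * v (x + Q • w)) • α = (m * v x) • α := hper x w
        rw [← sub_eq_zero, ← sub_smul, ← mul_sub] at h1
        have h2 := hα0 _ h1
        rcases mul_eq_zero.1 h2 with h3 | h3
        · exact absurd h3 hm
        · exact sub_eq_zero.1 h3
      obtain ⟨M, hM1, hM2⟩ := torsion hQ n v hv hvper
      obtain ⟨h0, hh0⟩ := hconst
      have h4 := hM2 h0 0
      rw [nsmul_eq_mul] at h4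
      rcases mul_eq_zero.1 h4 with h5 | h5
      · have : M = 0 := by exact_mod_cast h5
        omega
      · exact hh0 (sub_eq_zero.1 h5)
    · exact h
  intro ε hε
  obtain ⟨J, hJ⟩ := exists_nat_gt (2 / ε)
  have hJpos : (0 : ℝ) < J := lt_trans (by positivity) hJ
  -- the majorant
  have hF : UM (fun h => ∑ i ∈ range J, ∑ i' ∈ range J, ev ((((i : ℤ) - i') * v h) • α))
      (∑ i ∈ range J, ∑ i' ∈ range J, if i = i' then 1 else 0) := by
    refine UM.sum _ fun i _ => UM.sum _ fun i' _ => ?_
    split_ifs with hii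
    · subst hii
      refine (UM.const 1).congr fun h => ?_
      rw [sub_self, zero_mul, zero_smul, ev_zero]
    · refine hmean _ ?_
      intro h
      apply hii
      have : (i : ℤ) = i' := sub_eq_zero.1 h
      exact_mod_cast this
  have hJs : (∑ i ∈ range J, ∑ i' ∈ range J, if i = i' then (1 : ℂ) else 0) = J := by
    have : ∀ i ∈ range J, ∑ i' ∈ range J, (if i = i' then (1 : ℂ) else 0) = 1 := by
      intro i hi
      rw [Finset.sum_ite_eq, if_pos hi]
    rw [Finset.sum_congr rfl this]
    simp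
  rw [hJs] at hF
  have hFnn : ∀ h, ∑ i ∈ range J, ∑ i' ∈ range J, ev ((((i : ℤ) - i') * v h) • α) =
      ((‖∑ i ∈ range J, ev (((i : ℤ) * v h) • α)‖ ^ 2 : ℝ) : ℂ) := by
    intro h
    push_cast
    rw [← Complex.ofReal_pow, ← Complex.normSq_eq_norm_sq, ← Complex.mul_conj, map_sum,
      Finset.sum_mul_sum]
    refine Finset.sum_congr rfl fun i _ => Finset.sum_congr rfl fun i' _ => ?_
    rw [← ev_sub, ← sub_smul, ← sub_mul]
  obtain ⟨L, hL⟩ := hF J hJpos
  refine ⟨L, fun a s hs => ?_⟩
  have h1 := hL a s hs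
  have hv0 := vl_nonneg s
  -- number of zeros
  have hcount : (((bx a s).filter fun h => v h = 0).card : ℝ) * J ^ 2 ≤ 2 * J * vl s := by
    have h2 : (((bx a s).filter fun h => v h = 0).card : ℝ) * J ^ 2 ≤
        ∑ h ∈ bx a s, ‖∑ i ∈ range J, ev (((i : ℤ) * v h) • α)‖ ^ 2 := by
      rw [← nsmul_eq_mul, ← Finset.sum_const]
      refine le_trans (Finset.sum_le_sum fun h hh => ?_)
        (Finset.sum_le_sum_of_subset_of_nonneg (Finset.filter_subset (fun h => v h = 0) _)
          fun _ _ _ => by positivity)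
      rw [(Finset.mem_filter.1 hh).2]
      simp [ev_zero]
    refine h2.trans ?_
    simp only [hFnn] at h1
    rw [← Complex.ofReal_sum, ← Complex.ofReal_natCast, ← Complex.ofReal_mul,
      ← Complex.ofReal_sub, Complex.norm_real] at h1
    have h3 := (abs_le.1 h1).2
    linarith
  have h4 : ‖∑ h ∈ bx a s, (if v h = 0 then b h else 0)‖ ≤
      (((bx a s).filter fun h => v h = 0).card : ℝ) := by
    rw [← Finset.sum_filter]
    refine (norm_sum_le _ _).trans ?_
    refine (Finset.sum_le_sum fun h _ => hb h).trans ?_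
    simp
  rw [mul_zero, sub_zero]
  refine h4.trans ?_
  have h5 : 2 ≤ ε * J := by
    have : 2 / ε * ε = 2 := by field_simp
    nlinarith
  have h6 : (((bx a s).filter fun h => v h = 0).card : ℝ) * J ^ 2 ≤ (ε * vl s) * J ^ 2 := by
    refine hcount.trans ?_
    nlinarith [mul_nonneg hJpos.le hv0]
  exact le_of_mul_le_mul_right h6 (by positivity)

/-- **Uniform means of torus integrals of polynomial families of characters** -/
theorem um_char {D : ℕ} (n : ℕ) (g : (Fin r → ℤ) → (Fin D → ℤ) × ℝ) (hg : IsPoly n g) :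
    ∃ c, UM (fun h => if (g h).1 = 0 then ee (g h).2 else 0) c := by
  classical
  by_cases h0 : ∀ h, (g h).1 = 0
  · set θ : (Fin r → ℤ) → UnitAddCircle := fun h => (((g h).2 : ℝ) : UnitAddCircle) with hθ
    have hp : IsPoly n θ := hg.map (AddMonoidHom.mk'
      (fun z : (Fin D → ℤ) × ℝ => ((z.2 : ℝ) : UnitAddCircle))
      (fun a b => by rw [Prod.snd_add, AddCircle.coe_add]))
    have e : ∀ h, (if (g h).1 = 0 then ee (g h).2 else 0) = ev (θ h) := by
      intro h
      rw [if_pos (h0 h), hθ, ev_coe]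
    rcases dich n θ hp with ⟨Q, hQ, hper⟩ | h
    · obtain ⟨c, hc⟩ := um_of_per (b := fun h => ev (θ h)) (fun h => (norm_ev _).le) hQ
        (fun x w => by
          show ev (θ (x + Q • w)) = ev (θ x)
          rw [hper x w])
      exact ⟨c, hc.congr e⟩
    · exact ⟨0, h.congr e⟩
  · push Not at h0
    obtain ⟨h1, hh1⟩ := h0
    obtain ⟨i, hi⟩ : ∃ i, (g h1).1 i ≠ 0 := by
      by_contra hcon
      push Not at hcon
      exact hh1 (funext hcon)
    have hp : IsPoly n (fun h => (g h).1 i) := hg.map (AddMonoidHom.mk'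
      (fun z : (Fin D → ℤ) × ℝ => z.1 i) (fun a b => by rw [Prod.fst_add, Pi.add_apply]))
    refine ⟨0, (um_zero_set n _ hp ⟨h1, hi⟩
      (fun h => if (g h).1 = 0 then ee (g h).2 else 0) ?_).congr ?_⟩
    · intro h
      split_ifs
      · exact (Pool.Agent.H767R2.norm_ee _).le
      · simp
    · intro h
      by_cases h2 : (g h).1 = 0
      · rw [if_pos h2, if_pos]
        rw [h2]; rfl
      · rw [if_neg h2]
        simp

end Pool.Agent.W742.CU
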