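import Pool.Agent.W742.CU.KL
import Pool.Agent.H767R2.Final379

/-!
# The cube averages of the vertical character of the nilsystem tend to zero
-/

set_option autoImplicit false

open Finset Filter Topology MeasureTheory
open scoped ENNReal

namespace Pool.Agent.W742.CU

open Pool.Agent.H767R2

variable {g : (Fin 4 → UnitAddCircle) → ℂ}

theorem TT_mp (n : ℤ) : MeasurePreserving ⇑(TT ^ n) muX muX :=
  zpow_measurePreserving TT mp_TT mp_TT_symm n

theorem BM_FL (hgm : Measurable g) (hg : ∀ B, ‖g B‖ ≤ 1) (L : List (ℤ × Bool)) :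
    BM 1 (FL (ff g) L) :=
  ⟨measurable_FL (measurable_ff hgm) L, norm_FL_le (norm_ff_le hg) L, zero_le_one⟩

theorem dd_FL (L : List (ℤ × Bool)) (n : ℕ) :
    dd TT (n : ℤ) (FL (ff g) L) = FL (ff g) (dL n L) := by
  ext v
  rw [← FL_dL, dd, zpow_nat]

theorem LE_FL_succ (hgm : Measurable g) (hg : ∀ B, ‖g B‖ ≤ 1) (r : ℕ) (L : List (ℤ × Bool))
    (h : ∀ ε : ℝ, 0 < ε → ∀ᶠ n : ℕ in atTop, LE muX TT r (FL (ff g) (dL n L)) ε) :
    LE muX TT (r + 1) (FL (ff g) L) 0 := by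
  refine LE_succ TT_mp r (BM_FL hgm hg L) fun ε hε => ?_
  filter_upwards [h ε hε] with n hn
  rwa [dd_FL]

theorem LE_d (hgm : Measurable g) (hg : ∀ B, ‖g B‖ ≤ 1) (h1 h2 h3 : ℕ) :
    LE muX TT 1 (FL (ff g) (dL h3 (dL h2 (dL h1 L0)))) ((haarT 4) (SS h1 h2 h3)).toReal := by
  obtain ⟨M, hM⟩ := four_subset (h1 : ℤ) h2 h3
  refine LE_one (BM_FL hgm hg _) ?_
  filter_upwards [tendsto_natCast_atTop_atTop.eventually_gt_atTop M] with k hk
  rw [corr_FL]
  refine (integral_FL hgm hg _).2.trans ?_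
  exact ENNReal.toReal_mono (measure_ne_top _ _) (measure_mono (hM k (by exact_mod_cast hk)))

theorem LE_c (hgm : Measurable g) (hg : ∀ B, ‖g B‖ ≤ 1) (h1 h2 : ℕ) (hh1 : 1 ≤ h1) (hh2 : 1 ≤ h2) :
    LE muX TT 2 (FL (ff g) (dL h2 (dL h1 L0))) 0 := by
  refine LE_FL_succ hgm hg 1 _ fun ε hε => ?_
  obtain ⟨M, hM0, hM⟩ := SS_measure (h1 : ℤ) h2 (by positivity) (by positivity)
  have h4 : Tendsto (fun k : ℕ => 2 * (M / (k : ℝ))) atTop (𝓝 (2 * 0)) :=
    (tendsto_const_div_atTop_nhds_zero_nat M).const_mul 2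
  rw [mul_zero] at h4
  filter_upwards [eventually_gt_atTop 0, h4.eventually (gt_mem_nhds hε),
    tendsto_natCast_atTop_atTop.eventually_gt_atTop (2 * M)] with k hk0 hk1 hk2
  refine (LE_d hgm hg h1 h2 k).mono ?_
  have h5 := hM k (by exact_mod_cast hk0) (by exact_mod_cast hk2)
  have h6 := ENNReal.toReal_mono ENNReal.ofReal_ne_top h5
  rw [ENNReal.toReal_ofReal (by positivity)] at h6
  exact h6.trans (by push_cast; exact hk1.le)

theorem LE_b (hgm : Measurable g) (hg : ∀ B, ‖g B‖ ≤ 1) (h1 : ℕ) (hh1 : 1 ≤ h1) :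
    LE muX TT 3 (FL (ff g) (dL h1 L0)) 0 := by
  refine LE_FL_succ hgm hg 2 _ fun ε hε => ?_
  filter_upwards [eventually_ge_atTop 1] with n hn
  exact (LE_c hgm hg h1 n hh1 hn).mono hε.le

theorem LE_a (hgm : Measurable g) (hg : ∀ B, ‖g B‖ ≤ 1) : LE muX TT 4 (ff g) 0 := by
  rw [← FL_L0 (ff g)]
  refine LE_FL_succ hgm hg 3 _ fun ε hε => ?_
  filter_upwards [eventually_ge_atTop 1] with n hn
  exact (LE_b hgm hg n hn).mono hε.le

theorem KA_ff : Tendsto (KA muX TT 4 (FF (Fin.succ 3))) atTop (𝓝 0) := by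
  have h1 : FF (Fin.succ 3) = ff ind := FF_four
  rw [h1]
  exact LE_zero_tendsto (LE_a measurable_ind norm_ind_le)

/-! ### The frozen form of the cube averages -/

theorem sum_piFinset_range {r : ℕ} {M' : Type*} [AddCommMonoid M'] (F : (Fin r → ℤ) → M') (H : ℕ) :
    ∑ h ∈ Fintype.piFinset (fun _ : Fin r => Finset.range H), F (fun j => (h j : ℤ)) =
      ∑ h ∈ bx (0 : Fin r → ℤ) (fun _ => H), F h := by
  refine Finset.sum_nbij' (fun h j => (h j : ℤ)) (fun h j => (h j).toNat) ?_ ?_ ?_ ?_ ?_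
  · intro h hh
    rw [Fintype.mem_piFinset] at hh
    rw [mem_bx]
    intro j
    have := Finset.mem_range.1 (hh j)
    simp only [Pi.zero_apply]
    omega
  · intro h hh
    rw [mem_bx] at hh
    rw [Fintype.mem_piFinset]
    intro j
    have := hh j
    simp only [Pi.zero_apply] at this
    rw [Finset.mem_range]
    omega
  · intro h _
    ext j
    simp
  · intro h hh
    rw [mem_bx] at hh
    ext j
    have := hh j
    simp only [Pi.zero_apply] at this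
    show ((h j).toNat : ℤ) = h j
    omega
  · intro h _
    rfl

theorem frozen_KA {X : Type*} [MeasurableSpace X] (μ : Measure X) (T : Equiv.Perm X) (r : ℕ)
    (f : X → ℂ) (H : ℕ) :
    (1 / (H : ℂ) ^ r) * ∑ h ∈ Fintype.piFinset (fun _ : Fin r => Finset.range H),
      ∫ x, ∏ ε : Fin r → Bool,
        (⇑(starRingEnd ℂ))^[(Finset.univ.filter (fun j => ε j = true)).card]
          (f ((T ^ (∑ j, if ε j = true then (h j : ℤ) else 0)) x)) ∂μ = KA μ T r f H := by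
  rw [KA, ← sum_piFinset_range]
  rfl

/-! ### `L²` norms -/

theorem tendsto_int_sq_of_eLpNorm {X : Type*} [MeasurableSpace X] {μ : Measure X}
    [IsProbabilityMeasure μ] {A : ℕ → X → ℂ} (hA : ∀ N, Measurable (A N))
    (hb : ∀ N, ∃ C : ℝ, ∀ x, ‖A N x‖ ≤ C)
    (h : Tendsto (fun N => eLpNorm (A N) 2 μ) atTop (𝓝 0)) :
    Tendsto (fun N => ∫ x, ‖A N x‖ ^ 2 ∂μ) atTop (𝓝 0) := by
  have h1 : ∀ N, ∫ x, ‖A N x‖ ^ 2 ∂μ = (eLpNorm (A N) 2 μ).toReal ^ 2 := by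
    intro N
    obtain ⟨C, hC⟩ := hb N
    have h2 : Bd μ C (A N) := ⟨(hA N).aestronglyMeasurable, ae_of_all _ hC⟩
    rw [eLpNorm_two_eq h2, ENNReal.toReal_ofReal (Real.sqrt_nonneg _), Real.sq_sqrt]
    exact integral_nonneg fun x => by positivity
  simp_rw [h1]
  have h2 := (ENNReal.tendsto_toReal ENNReal.zero_ne_top).comp h
  have h3 := h2.pow 2
  simpa using h3

theorem tendsto_eLpNorm_of_int_sq {X : Type*} [MeasurableSpace X] {μ : Measure X}
    [IsProbabilityMeasure μ] {A : ℕ → X → ℂ} (hA : ∀ N, Measurable (A N))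
    (hb : ∀ N, ∃ C : ℝ, ∀ x, ‖A N x‖ ≤ C)
    (h : Tendsto (fun N => ∫ x, ‖A N x‖ ^ 2 ∂μ) atTop (𝓝 0)) :
    Tendsto (fun N => eLpNorm (A N) 2 μ) atTop (𝓝 0) := by
  have h1 : ∀ N, eLpNorm (A N) 2 μ = ENNReal.ofReal (Real.sqrt (∫ x, ‖A N x‖ ^ 2 ∂μ)) := by
    intro N
    obtain ⟨C, hC⟩ := hb N
    have h2 : Bd μ C (A N) := ⟨(hA N).aestronglyMeasurable, ae_of_all _ hC⟩
    rw [eLpNorm_two_eq h2]
  simp_rw [h1]
  have h2 := (ENNReal.continuous_ofReal.tendsto _).comp ((Real.continuous_sqrt.tendsto _).comp h)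
  rw [Real.sqrt_zero, ENNReal.ofReal_zero] at h2
  exact h2

end Pool.Agent.W742.CU
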