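import Mathlib

/-!
# Uniform means of functions on `ℤ ^ r`
-/

set_option autoImplicit false

open Finset Filter Topology

namespace Pool.Agent.W742.CU

variable {r : ℕ}

/-- box -/
noncomputable def bx (a : Fin r → ℤ) (s : Fin r → ℕ) : Finset (Fin r → ℤ) :=
  Fintype.piFinset fun j => Finset.Ico (a j) (a j + s j)

theorem mem_bx {a : Fin r → ℤ} {s : Fin r → ℕ} {h : Fin r → ℤ} :
    h ∈ bx a s ↔ ∀ j, a j ≤ h j ∧ h j < a j + s j := by
  simp [bx, Fintype.mem_piFinset]

theorem card_bx (a : Fin r → ℤ) (s : Fin r → ℕ) : (bx a s).card = ∏ j, s j := by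
  simp [bx, Fintype.card_piFinset]

/-- volume of a box -/
def vl (s : Fin r → ℕ) : ℝ := ∏ j, (s j : ℝ)

theorem card_bx' (a : Fin r → ℤ) (s : Fin r → ℕ) : ((bx a s).card : ℝ) = vl s := by
  rw [card_bx, vl]; push_cast; rfl

theorem vl_nonneg (s : Fin r → ℕ) : 0 ≤ vl s := Finset.prod_nonneg fun _ _ => by positivity

theorem vl_pos {s : Fin r → ℕ} (hs : ∀ j, 1 ≤ s j) : 0 < vl s :=
  Finset.prod_pos fun j _ => by exact_mod_cast hs j

theorem sum_bx_shift {M : Type*} [AddCommMonoid M] (b : (Fin r → ℤ) → M) (a k : Fin r → ℤ)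
    (s : Fin r → ℕ) : ∑ h ∈ bx a s, b (h + k) = ∑ h ∈ bx (a + k) s, b h := by
  refine Finset.sum_bij (fun h _ => h + k) ?_ ?_ ?_ ?_
  · intro h hh
    rw [mem_bx] at hh ⊢
    intro j
    have := hh j
    simp only [Pi.add_apply]
    omega
  · intro h _ h' _ e
    exact add_right_cancel e
  · intro h hh
    refine ⟨h - k, ?_, sub_add_cancel _ _⟩
    rw [mem_bx] at hh ⊢
    intro j
    have := hh j
    simp only [Pi.add_apply, Pi.sub_apply] at this ⊢
    omega
  · intro h _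
    rfl

/-- `b` has the uniform mean `c` -/
def UM (b : (Fin r → ℤ) → ℂ) (c : ℂ) : Prop :=
  ∀ ε : ℝ, 0 < ε → ∃ L : ℕ, ∀ (a : Fin r → ℤ) (s : Fin r → ℕ), (∀ j, L ≤ s j) →
    ‖∑ h ∈ bx a s, b h - (vl s : ℂ) * c‖ ≤ ε * vl s

theorem UM.add {b b' : (Fin r → ℤ) → ℂ} {c c' : ℂ} (h : UM b c) (h' : UM b' c') :
    UM (fun x => b x + b' x) (c + c') := by
  intro ε hε
  obtain ⟨L, hL⟩ := h (ε / 2) (by positivity)
  obtain ⟨L', hL'⟩ := h' (ε / 2) (by positivity)
  refine ⟨max L L', fun a s hs => ?_⟩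
  have h1 := hL a s fun j => (le_max_left _ _).trans (hs j)
  have h2 := hL' a s fun j => (le_max_right _ _).trans (hs j)
  have e : ∑ x ∈ bx a s, (b x + b' x) - (vl s : ℂ) * (c + c') =
      (∑ x ∈ bx a s, b x - (vl s : ℂ) * c) + (∑ x ∈ bx a s, b' x - (vl s : ℂ) * c') := by
    rw [Finset.sum_add_distrib]; ring
  rw [e]
  refine (norm_add_le _ _).trans ?_
  linarith

theorem UM.const_mul {b : (Fin r → ℤ) → ℂ} {c : ℂ} (h : UM b c) (z : ℂ) :
    UM (fun x => z * b x) (z * c) := by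
  intro ε hε
  obtain ⟨L, hL⟩ := h (ε / (‖z‖ + 1)) (by positivity)
  refine ⟨L, fun a s hs => ?_⟩
  have h1 := hL a s hs
  have e : ∑ x ∈ bx a s, z * b x - (vl s : ℂ) * (z * c) =
      z * (∑ x ∈ bx a s, b x - (vl s : ℂ) * c) := by
    rw [← Finset.mul_sum]; ring
  rw [e, norm_mul]
  calc ‖z‖ * ‖∑ x ∈ bx a s, b x - (vl s : ℂ) * c‖ ≤ (‖z‖ + 1) * (ε / (‖z‖ + 1) * vl s) := by
        gcongr
        linarith
    _ = ε * vl s := by field_simp

theorem UM.zero : UM (fun _ : Fin r → ℤ => (0 : ℂ)) 0 := by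
  intro ε hε
  refine ⟨0, fun a s _ => ?_⟩
  simp only [Finset.sum_const_zero, mul_zero, sub_zero, norm_zero]
  exact mul_nonneg hε.le (vl_nonneg s)

theorem UM.const (c : ℂ) : UM (fun _ : Fin r → ℤ => c) c := by
  intro ε hε
  refine ⟨0, fun a s _ => ?_⟩
  rw [Finset.sum_const, nsmul_eq_mul, ← Complex.ofReal_natCast, card_bx', sub_self, norm_zero]
  exact mul_nonneg hε.le (vl_nonneg s)

theorem UM.sum {ι : Type*} (F : Finset ι) {b : ι → (Fin r → ℤ) → ℂ} {c : ι → ℂ}
    (h : ∀ i ∈ F, UM (b i) (c i)) : UM (fun x => ∑ i ∈ F, b i x) (∑ i ∈ F, c i) := by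
  classical
  induction F using Finset.induction_on with
  | empty => simpa using UM.zero
  | insert i F hi ih =>
    have h1 := (h i (Finset.mem_insert_self _ _)).add
      (ih fun j hj => h j (Finset.mem_insert_of_mem hj))
    simp only [Finset.sum_insert hi]
    exact h1

theorem UM.congr {b b' : (Fin r → ℤ) → ℂ} {c : ℂ} (h : UM b c) (e : ∀ x, b' x = b x) :
    UM b' c := by
  have : b' = b := funext e
  rwa [this]

theorem UM.shift {b : (Fin r → ℤ) → ℂ} {c : ℂ} (h : UM b c) (k : Fin r → ℤ) :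
    UM (fun x => b (x + k)) c := by
  intro ε hε
  obtain ⟨L, hL⟩ := h ε hε
  refine ⟨L, fun a s hs => ?_⟩
  rw [sum_bx_shift]
  exact hL _ _ hs

theorem UM.conj {b : (Fin r → ℤ) → ℂ} {c : ℂ} (h : UM b c) :
    UM (fun x => (starRingEnd ℂ) (b x)) ((starRingEnd ℂ) c) := by
  intro ε hε
  obtain ⟨L, hL⟩ := h ε hε
  refine ⟨L, fun a s hs => ?_⟩
  have h1 := hL a s hs
  rw [← RCLike.norm_conj] at h1
  rw [map_sub, map_sum, map_mul, Complex.conj_ofReal] at h1
  exact h1

theorem UM.unique {b : (Fin r → ℤ) → ℂ} {c c' : ℂ} (h : UM b c) (h' : UM b c') : c = c' := by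
  by_contra hne
  have hpos : 0 < ‖c - c'‖ := norm_pos_iff.2 (sub_ne_zero.2 hne)
  obtain ⟨L, hL⟩ := h (‖c - c'‖ / 4) (by positivity)
  obtain ⟨L', hL'⟩ := h' (‖c - c'‖ / 4) (by positivity)
  set s : Fin r → ℕ := fun _ => max (max L L') 1 with hs
  have h1 := hL 0 s fun j => (le_max_left _ _).trans (le_max_left _ _)
  have h2 := hL' 0 s fun j => (le_max_right _ _).trans (le_max_left _ _)
  have hv : 0 < vl s := vl_pos fun j => le_max_right _ _
  have e : (vl s : ℂ) * (c - c') = (∑ x ∈ bx 0 s, b x - (vl s : ℂ) * c') -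
      (∑ x ∈ bx 0 s, b x - (vl s : ℂ) * c) := by ring
  have h3 : vl s * ‖c - c'‖ ≤ ‖c - c'‖ / 4 * vl s + ‖c - c'‖ / 4 * vl s := by
    calc vl s * ‖c - c'‖ = ‖(vl s : ℂ) * (c - c')‖ := by
          rw [norm_mul, Complex.norm_real, Real.norm_of_nonneg hv.le]
      _ ≤ _ := by
          rw [e]
          exact (norm_sub_le _ _).trans (add_le_add h2 h1)
  nlinarith

/-- uniform limits -/
theorem UM.of_approx {b : (Fin r → ℤ) → ℂ}
    (h : ∀ ε : ℝ, 0 < ε → ∃ (b' : (Fin r → ℤ) → ℂ) (c' : ℂ), UM b' c' ∧ ∀ x, ‖b x - b' x‖ ≤ ε) :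
    ∃ c, UM b c := by
  choose b' c' h1 h2 using fun n : ℕ => h (1 / (n + 1)) (by positivity)
  -- closeness of the means
  have hcl : ∀ m n, ‖c' m - c' n‖ ≤ 1 / ((m : ℝ) + 1) + 1 / ((n : ℝ) + 1) := by
    intro m n
    refine le_of_forall_pos_le_add fun ε hε => ?_
    obtain ⟨L, hL⟩ := h1 m (ε / 2) (by positivity)
    obtain ⟨L', hL'⟩ := h1 n (ε / 2) (by positivity)
    set s : Fin r → ℕ := fun _ => max (max L L') 1 with hs
    have e1 := hL 0 s fun j => (le_max_left _ _).trans (le_max_left _ _)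
    have e2 := hL' 0 s fun j => (le_max_right _ _).trans (le_max_left _ _)
    have hv : 0 < vl s := vl_pos fun j => le_max_right _ _
    have e3 : ‖∑ x ∈ bx 0 s, b' m x - ∑ x ∈ bx 0 s, b' n x‖ ≤
        (1 / ((m : ℝ) + 1) + 1 / ((n : ℝ) + 1)) * vl s := by
      rw [← Finset.sum_sub_distrib]
      refine (norm_sum_le _ _).trans ?_
      rw [← card_bx' 0 s, mul_comm, ← nsmul_eq_mul, ← Finset.sum_const]
      refine Finset.sum_le_sum fun x _ => ?_
      have e4 : b' m x - b' n x = (b x - b' n x) - (b x - b' m x) := by ring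
      rw [e4]
      refine (norm_sub_le _ _).trans ?_
      have := h2 m x
      have := h2 n x
      linarith
    have e5 : (vl s : ℂ) * (c' m - c' n) = (∑ x ∈ bx 0 s, b' m x - ∑ x ∈ bx 0 s, b' n x) -
        (∑ x ∈ bx 0 s, b' m x - (vl s : ℂ) * c' m) + (∑ x ∈ bx 0 s, b' n x - (vl s : ℂ) * c' n) := by
      ring
    have e6 : vl s * ‖c' m - c' n‖ ≤ (1 / ((m : ℝ) + 1) + 1 / ((n : ℝ) + 1)) * vl s +
        ε / 2 * vl s + ε / 2 * vl s := by
      calc vl s * ‖c' m - c' n‖ = ‖(vl s : ℂ) * (c' m - c' n)‖ := by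
            rw [norm_mul, Complex.norm_real, Real.norm_of_nonneg hv.le]
        _ ≤ _ := by
            rw [e5]
            refine (norm_add_le _ _).trans (add_le_add ((norm_sub_le _ _).trans
              (add_le_add e3 e1)) e2)
    have e7 : vl s * ‖c' m - c' n‖ ≤
        vl s * (1 / ((m : ℝ) + 1) + 1 / ((n : ℝ) + 1) + ε) := by linarith
    exact le_of_mul_le_mul_left e7 hv
  have hcau : CauchySeq c' := by
    rw [Metric.cauchySeq_iff]
    intro ε hε
    obtain ⟨N, hN⟩ := exists_nat_one_div_lt (show (0:ℝ) < ε / 2 by positivity)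
    refine ⟨N, fun m hm n hn => ?_⟩
    rw [dist_eq_norm]
    refine lt_of_le_of_lt (hcl m n) ?_
    have a1 : 1 / ((m : ℝ) + 1) ≤ 1 / ((N : ℝ) + 1) := by
      apply one_div_le_one_div_of_le (by positivity)
      have : (N : ℝ) ≤ m := by exact_mod_cast hm
      linarith
    have a2 : 1 / ((n : ℝ) + 1) ≤ 1 / ((N : ℝ) + 1) := by
      apply one_div_le_one_div_of_le (by positivity)
      have : (N : ℝ) ≤ n := by exact_mod_cast hn
      linarith
    linarith
  obtain ⟨c, hc⟩ := cauchySeq_tendsto_of_complete hcau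
  refine ⟨c, fun ε hε => ?_⟩
  obtain ⟨N, hN⟩ := exists_nat_one_div_lt (show (0:ℝ) < ε / 3 by positivity)
  obtain ⟨m, hm1, hm2⟩ := ((Metric.tendsto_nhds.1 hc (ε / 3) (by positivity)).and
    (eventually_ge_atTop N)).exists
  obtain ⟨L, hL⟩ := h1 m (ε / 3) (by positivity)
  refine ⟨L, fun a s hs => ?_⟩
  have e1 := hL a s hs
  have hv := vl_nonneg s
  have hm3 : 1 / ((m : ℝ) + 1) ≤ ε / 3 := by
    refine le_trans ?_ hN.le
    apply one_div_le_one_div_of_le (by positivity)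
    have : (N : ℝ) ≤ m := by exact_mod_cast hm2
    linarith
  have e2 : ‖∑ x ∈ bx a s, b x - ∑ x ∈ bx a s, b' m x‖ ≤ ε / 3 * vl s := by
    rw [← Finset.sum_sub_distrib]
    refine (norm_sum_le _ _).trans ?_
    rw [← card_bx' a s, mul_comm, ← nsmul_eq_mul, ← Finset.sum_const]
    exact Finset.sum_le_sum fun x _ => (h2 m x).trans hm3
  have e3 : ‖(vl s : ℂ) * c' m - (vl s : ℂ) * c‖ ≤ ε / 3 * vl s := by
    rw [← mul_sub, norm_mul, Complex.norm_real, Real.norm_of_nonneg hv, mul_comm]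
    rw [dist_eq_norm] at hm1
    exact mul_le_mul_of_nonneg_right hm1.le hv
  have e4 : ∑ x ∈ bx a s, b x - (vl s : ℂ) * c = (∑ x ∈ bx a s, b x - ∑ x ∈ bx a s, b' m x) +
      (∑ x ∈ bx a s, b' m x - (vl s : ℂ) * c' m) + ((vl s : ℂ) * c' m - (vl s : ℂ) * c) := by ring
  rw [e4]
  refine (norm_add₃_le).trans ?_
  linarith

/-! ### Shifts -/

theorem card_face (a : Fin r → ℤ) (s : Fin r → ℕ) (j : Fin r) (t : ℤ) :
    (((bx a s).filter fun h => h j = t).card : ℝ) * s j ≤ vl s := by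
  classical
  have h1 : ((bx a s).filter fun h => h j = t) ⊆
      Fintype.piFinset (Function.update (fun i => Finset.Ico (a i) (a i + s i)) j {t}) := by
    intro h hh
    rw [Finset.mem_filter, mem_bx] at hh
    rw [Fintype.mem_piFinset]
    intro i
    by_cases hi : i = j
    · subst hi
      simp [hh.2]
    · rw [Function.update_of_ne hi, Finset.mem_Ico]
      exact hh.1 i
  have h2 := Finset.card_le_card h1
  rw [Fintype.card_piFinset] at h2
  have h3 : ∏ i, (Function.update (fun i => Finset.Ico (a i) (a i + s i)) j {t} i).card =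
      ∏ i ∈ Finset.univ.erase j, s i := by
    rw [← Finset.mul_prod_erase Finset.univ _ (Finset.mem_univ j)]
    rw [Function.update_self, Finset.card_singleton, one_mul]
    refine Finset.prod_congr rfl fun i hi => ?_
    rw [Function.update_of_ne (Finset.ne_of_mem_erase hi)]
    simp
  rw [h3] at h2
  have h4 : vl s = (s j : ℝ) * ∏ i ∈ Finset.univ.erase j, (s i : ℝ) := by
    rw [vl, ← Finset.mul_prod_erase Finset.univ _ (Finset.mem_univ j)]
  rw [h4, mul_comm]
  gcongr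
  exact_mod_cast h2

/-- the shifts which change box sums of bounded functions by little -/
def SkC (k : Fin r → ℤ) : Prop :=
  ∀ ε : ℝ, 0 < ε → ∃ L : ℕ, ∀ b : (Fin r → ℤ) → ℂ, (∀ h, ‖b h‖ ≤ 1) →
    ∀ (a : Fin r → ℤ) (s : Fin r → ℕ), (∀ j, L ≤ s j) →
      ‖∑ h ∈ bx a s, b (h + k) - ∑ h ∈ bx a s, b h‖ ≤ ε * vl s

/-- the subgroup of such shifts -/
def Sk (r : ℕ) : AddSubgroup (Fin r → ℤ) where
  carrier := {k | SkC k}
  zero_mem' := by
    intro ε hε
    refine ⟨0, fun b _ a s _ => ?_⟩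
    simp only [add_zero, sub_self, norm_zero]
    exact mul_nonneg hε.le (vl_nonneg s)
  add_mem' := by
    intro k k' hk hk' ε hε
    obtain ⟨L, hL⟩ := hk (ε / 2) (by positivity)
    obtain ⟨L', hL'⟩ := hk' (ε / 2) (by positivity)
    refine ⟨max L L', fun b hb a s hs => ?_⟩
    have h1 := hL (fun h => b (h + k')) (fun h => hb _) a s fun j => (le_max_left _ _).trans (hs j)
    have h2 := hL' b hb a s fun j => (le_max_right _ _).trans (hs j)
    have e : ∑ h ∈ bx a s, b (h + (k + k')) - ∑ h ∈ bx a s, b h =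
        (∑ h ∈ bx a s, b (h + k + k') - ∑ h ∈ bx a s, b (h + k')) +
          (∑ h ∈ bx a s, b (h + k') - ∑ h ∈ bx a s, b h) := by
      simp only [add_assoc]
      ring
    rw [e]
    refine (norm_add_le _ _).trans ?_
    linarith
  neg_mem' := by
    intro k hk ε hε
    obtain ⟨L, hL⟩ := hk ε hε
    refine ⟨L, fun b hb a s hs => ?_⟩
    have h1 := hL b hb (a + -k) s hs
    rw [norm_sub_rev] at h1
    have e1 : ∑ h ∈ bx a s, b (h + -k) = ∑ h ∈ bx (a + -k) s, b h := sum_bx_shift b a (-k) s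
    have e2 : ∑ h ∈ bx (a + -k) s, b (h + k) = ∑ h ∈ bx a s, b h := by
      rw [sum_bx_shift]
      congr 2
      abel
    rw [e1]
    rw [e2] at h1
    exact h1

theorem single_mem_Sk (j : Fin r) : (Pi.single j 1 : Fin r → ℤ) ∈ Sk r := by
  classical
  intro ε hε
  obtain ⟨L, hL⟩ := exists_nat_gt (2 / ε)
  refine ⟨L + 1, fun b hb a s hs => ?_⟩
  rw [sum_bx_shift]
  set e : Fin r → ℤ := Pi.single j 1 with he
  have hsj : (L : ℝ) + 1 ≤ s j := by exact_mod_cast hs j
  have hspos : (0 : ℝ) < s j := by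
    have : (0 : ℝ) ≤ L := by positivity
    linarith
  rw [← Finset.sum_sdiff_sub_sum_sdiff]
  have hA : bx (a + e) s \ bx a s ⊆ (bx (a + e) s).filter fun h => h j = a j + s j := by
    intro h hh
    rw [Finset.mem_sdiff, mem_bx, mem_bx] at hh
    obtain ⟨h1, h2⟩ := hh
    rw [Finset.mem_filter, mem_bx]
    refine ⟨h1, ?_⟩
    by_contra hne
    apply h2
    intro i
    have := h1 i
    by_cases hi : i = j
    · subst hi
      rw [he] at this
      simp only [Pi.add_apply, Pi.single_eq_same] at this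
      omega
    · rw [he] at this
      simp only [Pi.add_apply, Pi.single_eq_of_ne hi] at this
      omega
  have hB : bx a s \ bx (a + e) s ⊆ (bx a s).filter fun h => h j = a j := by
    intro h hh
    rw [Finset.mem_sdiff, mem_bx, mem_bx] at hh
    obtain ⟨h1, h2⟩ := hh
    rw [Finset.mem_filter, mem_bx]
    refine ⟨h1, ?_⟩
    by_contra hne
    apply h2
    intro i
    have := h1 i
    by_cases hi : i = j
    · subst hi
      rw [he]
      simp only [Pi.add_apply, Pi.single_eq_same]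
      omega
    · rw [he]
      simp only [Pi.add_apply, Pi.single_eq_of_ne hi]
      omega
  have hc : ∀ F : Finset (Fin r → ℤ), ‖∑ h ∈ F, b h‖ ≤ F.card := by
    intro F
    refine (norm_sum_le _ _).trans ?_
    refine (Finset.sum_le_sum fun h _ => hb h).trans ?_
    simp
  have h1 : ‖∑ h ∈ bx (a + e) s \ bx a s, b h‖ * s j ≤ vl s := by
    refine le_trans ?_ (card_face (a + e) s j (a j + s j))
    gcongr
    exact (hc _).trans (by exact_mod_cast Finset.card_le_card hA)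
  have h2 : ‖∑ h ∈ bx a s \ bx (a + e) s, b h‖ * s j ≤ vl s := by
    refine le_trans ?_ (card_face a s j (a j))
    gcongr
    exact (hc _).trans (by exact_mod_cast Finset.card_le_card hB)
  have h3 : ‖∑ h ∈ bx (a + e) s \ bx a s, b h - ∑ h ∈ bx a s \ bx (a + e) s, b h‖ * s j ≤
      2 * vl s := by
    have := norm_sub_le (∑ h ∈ bx (a + e) s \ bx a s, b h) (∑ h ∈ bx a s \ bx (a + e) s, b h)
    nlinarith
  have h4 : 2 ≤ ε * s j := by
    have : 2 / ε * ε = 2 := by field_simp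
    nlinarith
  have hv := vl_nonneg s
  have h5 : ‖∑ h ∈ bx (a + e) s \ bx a s, b h - ∑ h ∈ bx a s \ bx (a + e) s, b h‖ * s j ≤
      ε * vl s * s j := by nlinarith
  exact le_of_mul_le_mul_right h5 hspos

theorem all_mem_Sk (k : Fin r → ℤ) : k ∈ Sk r := by
  classical
  have h : k = ∑ j, k j • (Pi.single j 1 : Fin r → ℤ) := by
    ext i
    simp [Finset.sum_apply, Pi.single_apply]
  rw [h]
  exact AddSubgroup.sum_mem _ fun j _ => AddSubgroup.zsmul_mem _ (single_mem_Sk j) _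

theorem shift_small (k : Fin r → ℤ) : SkC k := all_mem_Sk k

/-- averaging along an arithmetic progression -/
theorem um_zero_of_avg {b : (Fin r → ℤ) → ℂ} (hb : ∀ h, ‖b h‖ ≤ 1) (v : Fin r → ℤ)
    (h : ∀ ε : ℝ, 0 < ε → ∃ K L : ℕ, 0 < K ∧ ∀ (a : Fin r → ℤ) (s : Fin r → ℕ), (∀ j, L ≤ s j) →
      ‖∑ x ∈ bx a s, ∑ k ∈ range K, b (x + (k : ℤ) • v)‖ ≤ ε * K * vl s) : UM b 0 := by
  intro ε hε
  obtain ⟨K, L, hK, hL⟩ := h (ε / 2) (by positivity)
  have hK' : (0 : ℝ) < K := by exact_mod_cast hK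
  choose L' hL' using fun k : ℕ => shift_small ((k : ℤ) • v) (ε / 2) (by positivity)
  refine ⟨max L ((range K).sup L'), fun a s hs => ?_⟩
  have h1 := hL a s fun j => (le_max_left _ _).trans (hs j)
  have h2 : ∀ k ∈ range K, ‖∑ x ∈ bx a s, b (x + (k : ℤ) • v) - ∑ x ∈ bx a s, b x‖ ≤
      ε / 2 * vl s := fun k hk => hL' k b hb a s fun j =>
    ((Finset.le_sup hk).trans (le_max_right _ _)).trans (hs j)
  have e : (K : ℂ) * ∑ x ∈ bx a s, b x = ∑ x ∈ bx a s, ∑ k ∈ range K, b (x + (k : ℤ) • v) -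
      ∑ k ∈ range K, (∑ x ∈ bx a s, b (x + (k : ℤ) • v) - ∑ x ∈ bx a s, b x) := by
    rw [Finset.sum_sub_distrib, Finset.sum_comm]
    simp
  have h3 : (K : ℝ) * ‖∑ x ∈ bx a s, b x‖ ≤ K * (ε * vl s) := by
    calc (K : ℝ) * ‖∑ x ∈ bx a s, b x‖ = ‖(K : ℂ) * ∑ x ∈ bx a s, b x‖ := by
          rw [norm_mul, Complex.norm_natCast]
      _ ≤ ε / 2 * K * vl s + ∑ k ∈ range K, ε / 2 * vl s := by
          rw [e]
          refine (norm_sub_le _ _).trans (add_le_add h1 ?_)
          exact (norm_sum_le _ _).trans (Finset.sum_le_sum h2)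
      _ = K * (ε * vl s) := by
          rw [Finset.sum_const, card_range, nsmul_eq_mul]; ring
  have h4 := le_of_mul_le_mul_left h3 hK'
  simpa using h4

/-- van der Corput -/
theorem vdc {b : (Fin r → ℤ) → ℂ} (hb : ∀ h, ‖b h‖ ≤ 1) (v : Fin r → ℤ)
    (h : ∀ k : ℕ, 1 ≤ k → UM (fun x => b (x + (k : ℤ) • v) * (starRingEnd ℂ) (b x)) 0) :
    UM b 0 := by
  refine um_zero_of_avg hb v fun ε hε => ?_
  obtain ⟨K, hK⟩ := exists_nat_gt (2 / ε ^ 2)
  have hKpos : (0 : ℝ) < K := lt_trans (by positivity) hK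
  have hK0 : 0 < K := by exact_mod_cast hKpos
  set ε' := ε ^ 2 / 2 with hε'
  have hε'0 : 0 < ε' := by positivity
  choose L hL using fun k : ℕ => fun hk : 1 ≤ k => h k hk ε' hε'0
  set L0 := (range K).sup (fun k => if hk : 1 ≤ k then L k hk else 0) with hL0
  refine ⟨K, L0, hK0, fun a s hs => ?_⟩
  -- pair correlations
  have hlt : ∀ k k' : ℕ, k < K → k' < k →
      ‖∑ x ∈ bx a s, b (x + (k : ℤ) • v) * (starRingEnd ℂ) (b (x + (k' : ℤ) • v))‖ ≤ ε' * vl s := by
    intro k k' hk hkk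
    have h1 : 1 ≤ k - k' := by omega
    have h2 : ∀ j, L (k - k') h1 ≤ s j := by
      intro j
      refine le_trans ?_ (hs j)
      have := Finset.le_sup (f := fun k => if hk : 1 ≤ k then L k hk else 0)
        (Finset.mem_range.2 (show k - k' < K by omega))
      simp only [h1, dif_pos] at this
      exact this
    have h3 := hL (k - k') h1 (a + (k' : ℤ) • v) s h2
    rw [mul_zero, sub_zero] at h3
    rw [← sum_bx_shift] at h3
    convert h3 using 5 with x
    · rw [add_assoc, ← add_smul]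
      congr 3
      omega
  have hne : ∀ k k' : ℕ, k < K → k' < K → k ≠ k' →
      ‖∑ x ∈ bx a s, b (x + (k : ℤ) • v) * (starRingEnd ℂ) (b (x + (k' : ℤ) • v))‖ ≤ ε' * vl s := by
    intro k k' hk hk' hkk
    rcases lt_or_gt_of_ne hkk with h1 | h1
    · have h2 := hlt k' k hk' h1
      rw [← RCLike.norm_conj, map_sum] at h2
      simp only [map_mul, Complex.conj_conj] at h2
      have e : ∀ x, b (x + (k : ℤ) • v) * (starRingEnd ℂ) (b (x + (k' : ℤ) • v)) =
          (starRingEnd ℂ) (b (x + (k' : ℤ) • v)) * b (x + (k : ℤ) • v) := fun x => mul_comm _ _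
      simp only [e]
      exact h2
    · exact hlt k k' hk h1
  have hv := vl_nonneg s
  -- second moment
  have hsec : ∑ x ∈ bx a s, ‖∑ k ∈ range K, b (x + (k : ℤ) • v)‖ ^ 2 ≤
      (K : ℝ) * vl s + K ^ 2 * (ε' * vl s) := by
    have e1 : ((∑ x ∈ bx a s, ‖∑ k ∈ range K, b (x + (k : ℤ) • v)‖ ^ 2 : ℝ) : ℂ) =
        ∑ k ∈ range K, ∑ k' ∈ range K, ∑ x ∈ bx a s,
          b (x + (k : ℤ) • v) * (starRingEnd ℂ) (b (x + (k' : ℤ) • v)) := by
      push_cast
      rw [Finset.sum_congr rfl fun k _ => Finset.sum_comm, Finset.sum_comm]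
      refine Finset.sum_congr rfl fun x _ => ?_
      rw [← Finset.sum_mul_sum, ← map_sum, Complex.mul_conj, Complex.normSq_eq_norm_sq]
      push_cast
      rfl
    have e2 : ∑ x ∈ bx a s, ‖∑ k ∈ range K, b (x + (k : ℤ) • v)‖ ^ 2 =
        ‖∑ k ∈ range K, ∑ k' ∈ range K, ∑ x ∈ bx a s,
          b (x + (k : ℤ) • v) * (starRingEnd ℂ) (b (x + (k' : ℤ) • v))‖ := by
      rw [← e1, Complex.norm_real, Real.norm_of_nonneg]
      exact Finset.sum_nonneg fun x _ => by positivity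
    rw [e2]
    calc _ ≤ ∑ k ∈ range K, ∑ k' ∈ range K, ((if k' = k then vl s else 0) + ε' * vl s) := by
          refine (norm_sum_le _ _).trans (Finset.sum_le_sum fun k hk => ?_)
          refine (norm_sum_le _ _).trans (Finset.sum_le_sum fun k' hk' => ?_)
          split_ifs with hkk
          · subst hkk
            refine le_trans ?_ (le_add_of_nonneg_right (by positivity))
            refine (norm_sum_le _ _).trans ?_
            rw [← card_bx' a s]
            refine (Finset.sum_le_sum (g := fun _ => (1:ℝ)) fun x _ => ?_).trans (by simp)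
            rw [norm_mul, RCLike.norm_conj]
            exact mul_le_one₀ (hb _) (norm_nonneg _) (hb _)
          · rw [zero_add]
            exact hne k k' (Finset.mem_range.1 hk) (Finset.mem_range.1 hk') (fun h => hkk h.symm)
      _ = (K : ℝ) * vl s + K ^ 2 * (ε' * vl s) := by
          have e3 : ∀ k ∈ range K, ∑ k' ∈ range K, ((if k' = k then vl s else 0) + ε' * vl s) =
              vl s + K * (ε' * vl s) := by
            intro k hk
            rw [Finset.sum_add_distrib, Finset.sum_ite_eq', if_pos hk, Finset.sum_const,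
              card_range, nsmul_eq_mul]
          rw [Finset.sum_congr rfl e3, Finset.sum_const, card_range, nsmul_eq_mul]
          ring
  -- Cauchy-Schwarz
  have hcs : ‖∑ x ∈ bx a s, ∑ k ∈ range K, b (x + (k : ℤ) • v)‖ ^ 2 ≤
      vl s * ((K : ℝ) * vl s + K ^ 2 * (ε' * vl s)) := by
    calc ‖∑ x ∈ bx a s, ∑ k ∈ range K, b (x + (k : ℤ) • v)‖ ^ 2 ≤
        (∑ x ∈ bx a s, ‖∑ k ∈ range K, b (x + (k : ℤ) • v)‖) ^ 2 := by
          gcongr
          exact norm_sum_le _ _
      _ ≤ (bx a s).card * ∑ x ∈ bx a s, ‖∑ k ∈ range K, b (x + (k : ℤ) • v)‖ ^ 2 :=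
          sq_sum_le_card_mul_sum_sq
      _ ≤ _ := by
          rw [card_bx']
          gcongr
  have hfin : vl s * ((K : ℝ) * vl s + K ^ 2 * (ε' * vl s)) ≤ (ε * K * vl s) ^ 2 := by
    have h1 : (K : ℝ) ≤ ε ^ 2 / 2 * K ^ 2 := by
      have h2 : 2 / ε ^ 2 * (ε ^ 2 / 2) = 1 := by field_simp
      have h3 : 1 ≤ K * (ε ^ 2 / 2) := by
        rw [← h2]
        exact mul_le_mul_of_nonneg_right hK.le (by positivity)
      nlinarith
    have h4 : vl s * ((K : ℝ) * vl s + K ^ 2 * (ε' * vl s)) =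
        vl s ^ 2 * (K + K ^ 2 * ε') := by ring
    have h5 : (ε * K * vl s) ^ 2 = vl s ^ 2 * (ε ^ 2 * K ^ 2) := by ring
    rw [h4, h5]
    gcongr
    rw [hε']
    linarith
  exact (sq_le_sq₀ (norm_nonneg _) (by positivity)).1 (hcs.trans hfin)

end Pool.Agent.W742.CU
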